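import Pool.Agent.H56.Circ.Local

/-!
# Finite chain rings: lengths and the size of the ghost subring
-/

open Polynomial Matrix

namespace Pool.Agent.H56.Circ

/-- Rings whose ideals are totally ordered are local. -/
lemma isLocalRing_of_chain {R : Type*} [CommRing R] [Nontrivial R]
    (hR : ∀ I J : Ideal R, I ≤ J ∨ J ≤ I) : IsLocalRing R := by
  obtain ⟨M, hM⟩ := Ideal.exists_maximal R
  refine IsLocalRing.of_unique_max_ideal ⟨M, hM, fun N hN => ?_⟩
  rcases hR M N with h | h
  · exact (hM.eq_of_le hN.ne_top h).symm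
  · exact hN.eq_of_le hM.ne_top h

/-- Ideals of a finite chain ring are principal. -/
lemma exists_generator {R : Type*} [CommRing R] [Finite R]
    (hR : ∀ I J : Ideal R, I ≤ J ∨ J ≤ I) (I : Ideal R) : ∃ γ : R, I = Ideal.span {γ} := by
  obtain ⟨γ, hγ, hmax⟩ := (Set.toFinite (I : Set R)).exists_maximalFor
    (fun x => Nat.card (Ideal.span {x} : Ideal R)) (I : Set R) ⟨0, I.zero_mem⟩
  refine ⟨γ, le_antisymm (fun x hx => ?_) ((Ideal.span_singleton_le_iff_mem _).mpr hγ)⟩
  rcases hR (Ideal.span {γ}) (Ideal.span {x}) with h | h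
  · have h1 : Nat.card (Ideal.span {γ} : Ideal R) ≤ Nat.card (Ideal.span {x} : Ideal R) :=
      Nat.card_le_card_of_injective _ (Set.inclusion_injective h)
    have h2 := hmax hx h1
    have h3 : (Ideal.span {γ} : Set R) = (Ideal.span {x} : Set R) :=
      Set.eq_of_subset_of_ncard_le h h2 (Set.toFinite _)
    have h4 : x ∈ (Ideal.span {x} : Set R) := Ideal.mem_span_singleton_self x
    rw [← h3] at h4
    exact h4
  · exact h (Ideal.mem_span_singleton_self x)

section chain

variable {R : Type*} [CommRing R] [IsLocalRing R] [Finite R] {γ : R}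
  (hγ : IsLocalRing.maximalIdeal R = Ideal.span {γ}) {e : ℕ} (he : γ ^ e = 0)
  (he' : ∀ i < e, γ ^ i ≠ 0)

omit [Finite R] in
include hγ in
lemma not_isUnit_iff_dvd (x : R) : ¬ IsUnit x ↔ γ ∣ x := by
  rw [← Ideal.mem_span_singleton, ← hγ]
  exact (IsLocalRing.mem_maximalIdeal x).symm

omit [Finite R] in
include hγ he in
/-- Every nonzero element is a unit times a power of `γ`. -/
lemma exists_unit_mul_pow (x : R) (hx : x ≠ 0) : ∃ i < e, ∃ u : Rˣ, x = u * γ ^ i := by
  classical
  have hex : ∃ i, ¬ γ ^ i ∣ x := ⟨e, by rw [he, zero_dvd_iff]; exact hx⟩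
  obtain ⟨n, hn, hmin⟩ := (⟨Nat.find hex, Nat.find_spec hex, fun m hm => Nat.find_min hex hm⟩ :
    ∃ n, ¬ γ ^ n ∣ x ∧ ∀ m < n, ¬ ¬ γ ^ m ∣ x)
  have hn0 : n ≠ 0 := by
    rintro rfl
    exact hn (by rw [pow_zero]; exact one_dvd _)
  obtain ⟨i, rfl⟩ := Nat.exists_eq_succ_of_ne_zero hn0
  have h1 := not_not.mp (hmin i (Nat.lt_succ_self i))
  obtain ⟨y, hy⟩ := h1
  have hyu : IsUnit y := by
    by_contra h
    rw [not_isUnit_iff_dvd hγ] at h
    obtain ⟨z, hz⟩ := h
    exact hn ⟨z, by rw [hy, hz, pow_succ]; ring⟩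
  obtain ⟨u, rfl⟩ := hyu
  refine ⟨i, ?_, u, by rw [hy]; ring⟩
  by_contra hlt
  apply hx
  have : γ ^ i = 0 := by
    have h2 : γ ^ e ∣ γ ^ i := pow_dvd_pow _ (not_lt.mp hlt)
    rw [he, zero_dvd_iff] at h2
    exact h2
  rw [hy, this, zero_mul]

omit [Finite R] in
include hγ he' in
/-- `γ ^ i c` divisible by `γ ^ (i+1)` implies `c` divisible by `γ`, for `i < e`. -/
lemma dvd_of_pow_mul (i : ℕ) (hi : i < e) (c : R) (h : γ ^ (i + 1) ∣ γ ^ i * c) : γ ∣ c := by
  by_contra hc
  rw [← not_isUnit_iff_dvd hγ, not_not] at hc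
  obtain ⟨u, rfl⟩ := hc
  obtain ⟨d, hd⟩ := h
  have h1 : γ ^ i * (u - γ * d) = 0 := by
    rw [mul_sub, hd, pow_succ]; ring
  have h2 : IsUnit ((u : R) - γ * d) := by
    by_contra h3
    rw [not_isUnit_iff_dvd hγ] at h3
    have h4 : γ ∣ (u : R) := by
      have := dvd_add h3 (dvd_mul_right γ d)
      rwa [sub_add_cancel] at this
    rw [← not_isUnit_iff_dvd hγ] at h4
    exact h4 u.isUnit
  exact he' i hi ((h2.mul_left_eq_zero).mp h1)

omit [Finite R] in
include hγ he' in
lemma not_pow_dvd (i : ℕ) (hi : i < e) (u : R) (hu : IsUnit u) : ¬ γ ^ (i + 1) ∣ u * γ ^ i := by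
  intro h
  rw [mul_comm] at h
  have := dvd_of_pow_mul hγ he' i hi u h
  rw [← not_isUnit_iff_dvd hγ] at this
  exact this hu

/-- One step of the filtration. -/
lemma card_step (hγ : IsLocalRing.maximalIdeal R = Ideal.span {γ}) (he' : ∀ i < e, γ ^ i ≠ 0)
    (G : AddSubgroup R) (hG : ∀ i < e, ∀ x ∈ G, γ ^ i ∣ x → ¬ γ ^ (i + 1) ∣ x → ∀ c : R,
      ∃ y ∈ G, γ ^ (i + 1) ∣ y - c * x) (i : ℕ) (hi : i < e)
    (hx : ∃ x ∈ G, γ ^ i ∣ x ∧ ¬ γ ^ (i + 1) ∣ x) :
    Nat.card {y : R // y ∈ G ∧ γ ^ i ∣ y} =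
      Nat.card (IsLocalRing.ResidueField R) * Nat.card {y : R // y ∈ G ∧ γ ^ (i + 1) ∣ y} := by
  classical
  obtain ⟨x, hxG, hxi, hxi'⟩ := hx
  obtain ⟨u, hu⟩ := hxi
  have hun : IsUnit u := by
    by_contra h
    rw [not_isUnit_iff_dvd hγ] at h
    obtain ⟨z, hz⟩ := h
    exact hxi' ⟨z, by rw [hu, hz, pow_succ]; ring⟩
  obtain ⟨u, rfl⟩ := hun
  -- the leading coefficient
  let lead : {y : R // y ∈ G ∧ γ ^ i ∣ y} → IsLocalRing.ResidueField R :=
    fun y => IsLocalRing.residue R (Classical.choose y.2.2)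
  have hlead : ∀ y : {y : R // y ∈ G ∧ γ ^ i ∣ y}, y.1 = γ ^ i * Classical.choose y.2.2 :=
    fun y => Classical.choose_spec y.2.2
  -- a section
  have hsec : ∀ c : IsLocalRing.ResidueField R, ∃ s : R, (s ∈ G ∧ γ ^ i ∣ s) ∧
      ∀ d, s = γ ^ i * d → IsLocalRing.residue R d = c := by
    intro c
    obtain ⟨c, rfl⟩ := IsLocalRing.residue_surjective c
    obtain ⟨y, hyG, hy⟩ := hG i hi x hxG ⟨u, hu⟩ hxi' (c * ↑(u⁻¹))
    have h1 : γ ^ i ∣ y := by
      have h2 : γ ^ i ∣ y - c * ↑(u⁻¹) * x := (pow_dvd_pow _ (Nat.le_succ i)).trans hy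
      have h3 : γ ^ i ∣ c * ↑(u⁻¹) * x := by rw [hu]; exact ⟨c * ↑(u⁻¹) * u, by ring⟩
      have := dvd_add h2 h3
      rwa [sub_add_cancel] at this
    refine ⟨y, ⟨hyG, h1⟩, fun d hd => ?_⟩
    have h4 : γ ^ (i + 1) ∣ γ ^ i * (d - c) := by
      have h5 : γ ^ i * (d - c) = y - c * ↑(u⁻¹) * x := by
        rw [hd, hu]
        have : (↑(u⁻¹) : R) * u = 1 := Units.inv_mul u
        linear_combination (c * γ ^ i) * this
      rw [h5]; exact hy
    have h6 := dvd_of_pow_mul hγ he' i hi _ h4
    rw [← sub_eq_zero, ← map_sub, IsLocalRing.residue_eq_zero_iff, hγ]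
    exact Ideal.mem_span_singleton.mpr h6
  choose s hs1 hs2 using hsec
  have key : ∀ (y : {y : R // y ∈ G ∧ γ ^ i ∣ y}), γ ^ (i + 1) ∣ y.1 - s (lead y) := by
    intro y
    obtain ⟨d, hd⟩ := (hs1 (lead y)).2
    have h1 := hs2 (lead y) d hd
    have h2 : IsLocalRing.residue R (Classical.choose y.2.2 - d) = 0 := by
      rw [map_sub, h1, sub_self]
    rw [IsLocalRing.residue_eq_zero_iff, hγ] at h2
    obtain ⟨z, hz⟩ := Ideal.mem_span_singleton.mp h2
    refine ⟨z, ?_⟩
    rw [hlead y, hd, ← mul_sub, hz, pow_succ]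
    ring
  have hleadeq : ∀ (y : {y : R // y ∈ G ∧ γ ^ i ∣ y}) (c : IsLocalRing.ResidueField R),
      γ ^ (i + 1) ∣ y.1 - s c → lead y = c := by
    intro y c h
    obtain ⟨d, hd⟩ := (hs1 c).2
    have h1 := hs2 c d hd
    rw [hlead y, hd, ← mul_sub] at h
    have h2 := dvd_of_pow_mul hγ he' i hi _ h
    have h3 : IsLocalRing.residue R (Classical.choose y.2.2 - d) = 0 := by
      rw [IsLocalRing.residue_eq_zero_iff, hγ]
      exact Ideal.mem_span_singleton.mpr h2
    rw [map_sub, sub_eq_zero, h1] at h3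
    exact h3
  rw [← Nat.card_prod]
  refine Nat.card_congr
    { toFun := fun y => (lead y, ⟨y.1 - s (lead y), G.sub_mem y.2.1 (hs1 _).1, key y⟩)
      invFun := fun z => ⟨z.2.1 + s z.1, G.add_mem z.2.2.1 (hs1 _).1,
        dvd_add ((pow_dvd_pow _ (Nat.le_succ i)).trans z.2.2.2) (hs1 _).2⟩
      left_inv := fun y => Subtype.ext (by simp)
      right_inv := fun z => by
        have h1 : lead ⟨z.2.1 + s z.1, G.add_mem z.2.2.1 (hs1 _).1,
            dvd_add ((pow_dvd_pow _ (Nat.le_succ i)).trans z.2.2.2) (hs1 _).2⟩ = z.1 :=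
          hleadeq _ _ (by simpa using z.2.2.2)
        refine Prod.ext h1 (Subtype.ext ?_)
        simp only [h1, add_sub_cancel_right] }

/-- The size of a subgroup closed under residual scaling is `q` to the number of valuations. -/
theorem card_eq_pow_valuations (hγ : IsLocalRing.maximalIdeal R = Ideal.span {γ}) (he : γ ^ e = 0)
    (he' : ∀ i < e, γ ^ i ≠ 0)
    (G : AddSubgroup R) (hG : ∀ i < e, ∀ x ∈ G, γ ^ i ∣ x → ¬ γ ^ (i + 1) ∣ x → ∀ c : R,
      ∃ y ∈ G, γ ^ (i + 1) ∣ y - c * x) (V : ℕ → Prop) [DecidablePred V]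
    (hV : ∀ i < e, V i ↔ ∃ x ∈ G, γ ^ i ∣ x ∧ ¬ γ ^ (i + 1) ∣ x) :
    Nat.card G = Nat.card (IsLocalRing.ResidueField R) ^ ((Finset.range e).filter V).card := by
  have hind : ∀ j ≤ e, Nat.card {y : R // y ∈ G ∧ γ ^ (e - j) ∣ y} =
      Nat.card (IsLocalRing.ResidueField R) ^
        ((Finset.range e).filter (fun i => V i ∧ e - j ≤ i)).card := by
    intro j
    induction j with
    | zero =>
      intro _
      have h1 : (Finset.range e).filter (fun i => V i ∧ e - 0 ≤ i) = ∅ := by
        rw [Finset.filter_eq_empty_iff]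
        intro i hi
        rw [Finset.mem_range] at hi
        omega
      rw [h1, Finset.card_empty, pow_zero, Nat.sub_zero, he]
      have : Unique {y : R // y ∈ G ∧ (0 : R) ∣ y} :=
        { default := ⟨0, G.zero_mem, dvd_refl 0⟩
          uniq := fun y => Subtype.ext (zero_dvd_iff.mp y.2.2) }
      exact Nat.card_unique
    | succ j ih =>
      intro hj
      have ih' := ih (by omega)
      have hlt : e - (j + 1) < e := by omega
      have hsucc : e - (j + 1) + 1 = e - j := by omega
      by_cases hVi : V (e - (j + 1))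
      · have h1 := card_step hγ he' G hG (e - (j + 1)) hlt ((hV _ hlt).mp hVi)
        rw [hsucc, ih'] at h1
        rw [h1, ← pow_succ']
        congr 1
        have h2 : (Finset.range e).filter (fun i => V i ∧ e - (j + 1) ≤ i) =
            insert (e - (j + 1)) ((Finset.range e).filter (fun i => V i ∧ e - j ≤ i)) := by
          ext i
          simp only [Finset.mem_filter, Finset.mem_range, Finset.mem_insert]
          constructor
          · rintro ⟨h3, h4, h5⟩
            by_cases h6 : i = e - (j + 1)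
            · left; exact h6
            · right; exact ⟨h3, h4, by omega⟩
          · rintro (rfl | ⟨h3, h4, h5⟩)
            · exact ⟨hlt, hVi, le_rfl⟩
            · exact ⟨h3, h4, by omega⟩
        rw [h2, Finset.card_insert_of_notMem]
        simp only [Finset.mem_filter, not_and, not_le]
        intro _ _
        omega
      · have h1 : (Finset.range e).filter (fun i => V i ∧ e - (j + 1) ≤ i) =
            (Finset.range e).filter (fun i => V i ∧ e - j ≤ i) := by
          ext i
          simp only [Finset.mem_filter, Finset.mem_range]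
          constructor
          · rintro ⟨h3, h4, h5⟩
            refine ⟨h3, h4, ?_⟩
            by_contra h6
            have h7 : i = e - (j + 1) := by omega
            rw [h7] at h4
            exact hVi h4
          · rintro ⟨h3, h4, h5⟩
            exact ⟨h3, h4, by omega⟩
        rw [h1, ← ih']
        refine Nat.card_congr (Equiv.subtypeEquivRight (fun y => and_congr_right (fun hy => ?_)))
        constructor
        · intro h2
          by_contra h3
          exact hVi ((hV _ hlt).mpr ⟨y, hy, h2, by rw [hsucc]; exact h3⟩)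
        · intro h2
          exact (pow_dvd_pow _ (by omega)).trans h2
  have h := hind e le_rfl
  rw [Nat.sub_self, pow_zero] at h
  have h1 : (Finset.range e).filter (fun i => V i ∧ 0 ≤ i) = (Finset.range e).filter V := by
    ext i; simp
  rw [h1] at h
  rw [← h]
  refine Nat.card_congr (Equiv.subtypeEquivRight (fun y => ?_))
  simp

/-- The order of a finite chain ring. -/
theorem card_chain (hγ : IsLocalRing.maximalIdeal R = Ideal.span {γ}) (he : γ ^ e = 0)
    (he' : ∀ i < e, γ ^ i ≠ 0) :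
    Nat.card R = Nat.card (IsLocalRing.ResidueField R) ^ e := by
  classical
  have h := card_eq_pow_valuations hγ he he' (⊤ : AddSubgroup R)
    (fun i _ x _ _ _ c => ⟨c * x, AddSubgroup.mem_top _, by rw [sub_self]; exact dvd_zero _⟩)
    (fun _ => True) (fun i hi => ⟨fun _ => ⟨γ ^ i, AddSubgroup.mem_top _, dvd_rfl, fun h => ?_⟩,
      fun _ => trivial⟩)
  · rw [Finset.filter_true_of_mem (fun _ _ => trivial), Finset.card_range] at h
    rw [← h]
    exact (Nat.card_congr AddSubgroup.topEquiv.toEquiv).symm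
  · have := not_pow_dvd hγ he' i hi 1 isUnit_one
    rw [one_mul] at this
    exact this h

section ghost

variable (p : ℕ) [hp : Fact p.Prime]

omit [IsLocalRing R] [Finite R] hp in
lemma gh_succ' (k : ℕ) (α : ℕ → R) :
    gh p (k + 1) α = α 0 ^ (p ^ (k + 1)) + p * gh p k (fun i => α (i + 1)) := by
  unfold gh
  rw [Finset.sum_range_succ', Finset.mul_sum, add_comm, pow_zero, one_mul, Nat.sub_zero]
  congr 1
  refine Finset.sum_congr rfl (fun i hi => ?_)
  rw [Finset.mem_range] at hi
  have e1 : k + 1 - (i + 1) = k - i := by omega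
  rw [pow_succ', mul_assoc, e1]

/-- The valuations attained by elements of `p^l G_{k-l}`. -/
lemma valuation_ghost (hγ : IsLocalRing.maximalIdeal R = Ideal.span {γ}) (he : γ ^ e = 0)
    (he' : ∀ i < e, γ ^ i ≠ 0) (k r : ℕ) (ε : Rˣ) (hε : (p : R) = ε * γ ^ r)
    (H : ∀ l t, l < t → t ≤ k → p ^ (k - t) ∣ (t - l) * r → p ^ (k - t) ∣ t - l ∨ e ≤ t * r) :
    ∀ n ≤ k, ∀ y ∈ ghostSubring p n R, ∀ i < e, γ ^ i ∣ (p : R) ^ (k - n) * y →
      ¬ γ ^ (i + 1) ∣ (p : R) ^ (k - n) * y →
      ∃ t, k - n ≤ t ∧ t ≤ k ∧ ∃ j, i = t * r + p ^ (k - t) * j := by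
  have hpl : ∀ l, (p : R) ^ l = ((ε ^ l : Rˣ) : R) * γ ^ (l * r) := by
    intro l
    rw [hε, mul_pow, ← pow_mul, mul_comm r l]
    simp
  intro n
  induction n with
  | zero =>
    intro _ y _ i hi h1 h2
    refine ⟨k, by omega, le_rfl, i - k * r, ?_⟩
    have h3 : k * r ≤ i := by
      by_contra h4
      apply h2
      rw [Nat.sub_zero, hpl k]
      have h5 : γ ^ (i + 1) ∣ γ ^ (k * r) := pow_dvd_pow _ (by omega)
      exact (h5.mul_left _).mul_right _
    rw [Nat.sub_self, pow_zero, one_mul]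
    omega
  | succ n ih =>
    intro hn y hy i hi h1 h2
    rw [mem_ghostSubring] at hy
    obtain ⟨α, rfl⟩ := hy
    rw [gh_succ'] at h1 h2
    set l := k - (n + 1) with hl
    have hl1 : k - n = l + 1 := by omega
    set z := gh p n (fun i => α (i + 1)) with hz
    have hzG : z ∈ ghostSubring p n R := (mem_ghostSubring p n z).mpr ⟨_, rfl⟩
    have hsplit : (p : R) ^ l * (α 0 ^ p ^ (n + 1) + p * z) =
        (p : R) ^ l * α 0 ^ p ^ (n + 1) + (p : R) ^ (l + 1) * z := by rw [pow_succ]; ring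
    rw [hsplit] at h1 h2
    have ih' := ih (by omega)
    rw [hl1] at ih'
    -- weaken the conclusion of the induction hypothesis
    have ihz : ∀ w ∈ ghostSubring p n R, ∀ i < e, γ ^ i ∣ (p : R) ^ (l + 1) * w →
        ¬ γ ^ (i + 1) ∣ (p : R) ^ (l + 1) * w →
        ∃ t, l ≤ t ∧ t ≤ k ∧ ∃ j, i = t * r + p ^ (k - t) * j := by
      intro w hw i hi h3 h4
      obtain ⟨t, h5, h6, h7⟩ := ih' w hw i hi h3 h4
      exact ⟨t, by omega, h6, h7⟩
    by_cases hT0 : (p : R) ^ l * α 0 ^ p ^ (n + 1) = 0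
    · rw [hT0, zero_add] at h1 h2
      exact ihz z hzG i hi h1 h2
    -- the first term is nonzero
    have hα0 : α 0 ≠ 0 := by
      intro h
      rw [h, zero_pow (pow_pos hp.out.pos _).ne', mul_zero] at hT0
      exact hT0 rfl
    obtain ⟨j0, _, u, hu⟩ := exists_unit_mul_pow hγ he (α 0) hα0
    have hT : (p : R) ^ l * α 0 ^ p ^ (n + 1) =
        ((ε ^ l * u ^ p ^ (n + 1) : Rˣ) : R) * γ ^ (l * r + p ^ (n + 1) * j0) := by
      rw [hpl, hu, mul_pow, ← pow_mul, mul_comm j0, pow_add]
      push_cast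
      ring
    have hkl : k - l = n + 1 := by omega
    set v := l * r + p ^ (n + 1) * j0 with hv
    have hve : v < e := by
      by_contra h
      apply hT0
      rw [hT]
      have h3 : γ ^ e ∣ γ ^ v := pow_dvd_pow _ (not_lt.mp h)
      rw [he, zero_dvd_iff] at h3
      rw [h3, mul_zero]
    have hTv : γ ^ v ∣ (p : R) ^ l * α 0 ^ p ^ (n + 1) := by rw [hT]; exact dvd_mul_left _ _
    have hTv' : ¬ γ ^ (v + 1) ∣ (p : R) ^ l * α 0 ^ p ^ (n + 1) := by
      rw [hT]
      exact not_pow_dvd hγ he' v hve _ (Units.isUnit _)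
    rcases lt_trichotomy i v with h3 | h3 | h3
    · -- the second term has valuation i
      have h4 : γ ^ (i + 1) ∣ (p : R) ^ l * α 0 ^ p ^ (n + 1) := (pow_dvd_pow _ (by omega)).trans hTv
      have h5 : γ ^ i ∣ (p : R) ^ (l + 1) * z := by
        have := dvd_sub h1 ((pow_dvd_pow _ (Nat.le_succ i)).trans h4)
        rwa [add_sub_cancel_left] at this
      have h6 : ¬ γ ^ (i + 1) ∣ (p : R) ^ (l + 1) * z := fun h => h2 (dvd_add h4 h)
      exact ihz z hzG i hi h5 h6
    · refine ⟨l, le_rfl, by omega, j0, ?_⟩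
      rw [hkl, h3]
    · -- cancellation: the second term has valuation v
      have h4 : γ ^ v ∣ (p : R) ^ (l + 1) * z := by
        have := dvd_sub ((pow_dvd_pow _ h3.le).trans h1) hTv
        rwa [add_sub_cancel_left] at this
      have h5 : ¬ γ ^ (v + 1) ∣ (p : R) ^ (l + 1) * z := by
        intro h
        apply hTv'
        have := dvd_sub ((pow_dvd_pow _ h3).trans h1) h
        rwa [add_sub_cancel_right] at this
      obtain ⟨t, ht1, ht2, j, hj⟩ := ih' z hzG v hve h4 h5
      have h6 : (t - l) * r + p ^ (k - t) * j = p ^ (n + 1) * j0 := by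
        have h7 : t * r = l * r + (t - l) * r := by
          rw [← add_mul]; congr 1; omega
        omega
      have h8 : p ^ (k - t) ∣ (t - l) * r := by
        have h9 : p ^ (k - t) ∣ p ^ (n + 1) * j0 := (pow_dvd_pow _ (by omega)).mul_right _
        rw [← h6] at h9
        exact (Nat.dvd_add_left (dvd_mul_right _ _)).mp h9
      rcases H l t (by omega) ht2 h8 with h9 | h9
      · -- rewrite the first term
        obtain ⟨s, hs⟩ := h9
        have hTt : (p : R) ^ l * α 0 ^ p ^ (n + 1) =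
            (p : R) ^ t * (γ ^ j * ((u ^ p ^ (t - l) * (ε⁻¹) ^ s : Rˣ) : R)) ^ p ^ (k - t) := by
          rw [hT, hpl t, mul_pow, ← pow_mul]
          have e1 : (((u ^ p ^ (t - l) * (ε⁻¹) ^ s : Rˣ) : R)) ^ p ^ (k - t) =
              ((u ^ p ^ (n + 1) * (ε⁻¹) ^ (t - l) : Rˣ) : R) := by
            rw [← Units.val_pow_eq_pow_val, mul_pow, ← pow_mul, ← pow_mul, ← pow_add, mul_comm s, ← hs]
            congr 4
            omega
          rw [e1]
          have e2 : γ ^ v = γ ^ (t * r) * γ ^ (j * p ^ (k - t)) := by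
            rw [← pow_add, hj, mul_comm j]
          rw [e2]
          have e3 : ((ε ^ l * u ^ p ^ (n + 1) : Rˣ) : R) =
              ((ε ^ t : Rˣ) : R) * ((u ^ p ^ (n + 1) * (ε⁻¹) ^ (t - l) : Rˣ) : R) := by
            rw [← Units.val_mul]
            congr 1
            have : ε ^ t = ε ^ l * ε ^ (t - l) := by rw [← pow_add]; congr 1; omega
            rw [this, inv_pow]
            calc ε ^ l * u ^ p ^ (n + 1) = ε ^ l * u ^ p ^ (n + 1) * (ε ^ (t - l) * (ε ^ (t - l))⁻¹) := by
                  rw [mul_inv_cancel, mul_one]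
              _ = ε ^ l * ε ^ (t - l) * (u ^ p ^ (n + 1) * (ε ^ (t - l))⁻¹) :=
                  mul_mul_mul_comm _ _ _ _
          rw [e3]
          ring
        have hmem : (p : R) ^ (t - l - 1) * (γ ^ j * ((u ^ p ^ (t - l) * (ε⁻¹) ^ s : Rˣ) : R)) ^ p ^ (k - t) ∈
            ghostSubring p n R := by
          rw [mem_ghostSubring]
          refine ⟨fun i => if i = t - l - 1 then γ ^ j * ((u ^ p ^ (t - l) * (ε⁻¹) ^ s : Rˣ) : R) else 0, ?_⟩
          unfold gh
          rw [Finset.sum_eq_single (t - l - 1)]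
          · have e1 : n - (t - l - 1) = k - t := by omega
            simp only [if_true, e1]
          · intro b _ hb
            beta_reduce
            rw [if_neg hb, zero_pow (pow_pos hp.out.pos _).ne', mul_zero]
          · intro h
            exfalso
            apply h
            rw [Finset.mem_range]
            omega
        have hx : (p : R) ^ l * α 0 ^ p ^ (n + 1) + (p : R) ^ (l + 1) * z =
            (p : R) ^ (l + 1) * ((p : R) ^ (t - l - 1) *
              (γ ^ j * ((u ^ p ^ (t - l) * (ε⁻¹) ^ s : Rˣ) : R)) ^ p ^ (k - t) + z) := by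
          rw [hTt, mul_add, ← mul_assoc, ← pow_add]
          congr 4
          omega
        rw [hx] at h1 h2
        exact ihz _ (Subring.add_mem _ hmem hzG) i hi h1 h2
      · exfalso
        have : t * r ≤ v := by rw [hj]; omega
        omega

/-- **Size of the ghost subring** of a chain ring, under the numerical condition `H`. -/
theorem card_ghost [CharP (IsLocalRing.ResidueField R) p]
    (hγ : IsLocalRing.maximalIdeal R = Ideal.span {γ}) (he : γ ^ e = 0)
    (he' : ∀ i < e, γ ^ i ≠ 0) (k r : ℕ) (ε : Rˣ) (hε : (p : R) = ε * γ ^ r)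
    (H : ∀ l t, l < t → t ≤ k → p ^ (k - t) ∣ (t - l) * r → p ^ (k - t) ∣ t - l ∨ e ≤ t * r) :
    Nat.card (ghostSubring p k R) = Nat.card (IsLocalRing.ResidueField R) ^
      {v : ℕ | v < e ∧ ∃ t ≤ k, ∃ j, v = t * r + p ^ (k - t) * j}.ncard := by
  classical
  have hfinF : Finite (IsLocalRing.ResidueField R) :=
    Finite.of_surjective _ (IsLocalRing.residue_surjective (R := R))
  have h := card_eq_pow_valuations hγ he he' (ghostSubring p k R).toAddSubgroup ?_
    (fun v => ∃ t ≤ k, ∃ j, v = t * r + p ^ (k - t) * j) ?_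
  · have h1 : {v : ℕ | v < e ∧ ∃ t ≤ k, ∃ j, v = t * r + p ^ (k - t) * j} =
        (((Finset.range e).filter (fun v => ∃ t ≤ k, ∃ j, v = t * r + p ^ (k - t) * j) : Finset ℕ) : Set ℕ) := by
      ext v
      simp
    rw [h1, Set.ncard_coe_finset, ← h]
    rfl
  · -- residual scaling
    intro i hi x hx hxi _ c
    obtain ⟨z, hz⟩ := (iterateFrobeniusEquiv (IsLocalRing.ResidueField R) p k).surjective
      (IsLocalRing.residue R c)
    obtain ⟨t, rfl⟩ := IsLocalRing.residue_surjective z
    have hmem : t ^ (p ^ k) ∈ ghostSubring p k R := by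
      rw [mem_ghostSubring]
      refine ⟨fun i => if i = 0 then t else 0, ?_⟩
      unfold gh
      rw [Finset.sum_range_succ']
      have : ∀ i ∈ Finset.range k, (p : R) ^ (i + 1) * (if i + 1 = 0 then t else 0) ^ p ^ (k - (i + 1)) = 0 := by
        intro i _
        rw [if_neg (by omega), zero_pow (pow_pos hp.out.pos _).ne', mul_zero]
      rw [Finset.sum_eq_zero this]
      simp
    refine ⟨t ^ (p ^ k) * x, Subring.mul_mem _ hmem hx, ?_⟩
    have h1 : γ ∣ t ^ (p ^ k) - c := by
      have h2 : IsLocalRing.residue R (t ^ (p ^ k) - c) = 0 := by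
        rw [map_sub, map_pow, ← hz]
        simp [iterateFrobeniusEquiv_apply, iterateFrobenius_def]
      rw [IsLocalRing.residue_eq_zero_iff, hγ] at h2
      exact Ideal.mem_span_singleton.mp h2
    have h3 : t ^ (p ^ k) * x - c * x = (t ^ (p ^ k) - c) * x := by ring
    rw [h3, pow_succ']
    exact mul_dvd_mul h1 hxi
  · intro i hi
    constructor
    · rintro ⟨t, ht, j, hj⟩
      have hx : (p : R) ^ t * (γ ^ j) ^ p ^ (k - t) = ((ε ^ t : Rˣ) : R) * γ ^ i := by
        rw [hε, mul_pow, ← pow_mul, ← pow_mul, mul_comm r t, mul_comm j, mul_assoc, ← pow_add, ← hj]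
        simp
      refine ⟨(p : R) ^ t * (γ ^ j) ^ p ^ (k - t), ?_, ?_, ?_⟩
      · change _ ∈ ghostSubring p k R
        rw [mem_ghostSubring]
        refine ⟨fun i => if i = t then γ ^ j else 0, ?_⟩
        unfold gh
        rw [Finset.sum_eq_single t]
        · beta_reduce
          rw [if_pos rfl]
        · intro b _ hb
          beta_reduce
          rw [if_neg hb, zero_pow (pow_pos hp.out.pos _).ne', mul_zero]
        · intro h
          exfalso
          apply h
          rw [Finset.mem_range]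
          omega
      · rw [hx]; exact dvd_mul_left _ _
      · rw [hx]; exact not_pow_dvd hγ he' i hi _ (Units.isUnit _)
    · rintro ⟨x, hx, h1, h2⟩
      have h3 := valuation_ghost p hγ he he' k r ε hε H k le_rfl x hx i hi
      rw [Nat.sub_self, pow_zero, one_mul] at h3
      obtain ⟨t, _, ht, j, hj⟩ := h3 h1 h2
      exact ⟨t, ht, j, hj⟩

end ghost

end chain

end Pool.Agent.H56.Circ
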