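import Pool.Agent.H56.Circ.Tower

/-!
# Dwork-type congruences for circulant determinants
-/

open Polynomial Matrix

namespace Pool.Agent.H56.Circ

variable {A B : Type*} [CommRing A] [CommRing B] (p : ℕ)

/-- Raise every coefficient of `f` to the power `p`. -/
noncomputable def pw (f : A[X]) : A[X] :=
  ∑ i ∈ Finset.range (f.natDegree + 1), C (f.coeff i ^ p) * X ^ i

lemma pw_coeff (hp : p ≠ 0) (f : A[X]) (n : ℕ) : (pw p f).coeff n = f.coeff n ^ p := by
  unfold pw
  rw [Polynomial.finsetSum_coeff]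
  simp only [Polynomial.coeff_C_mul_X_pow]
  rw [Finset.sum_ite_eq]
  split_ifs with h
  · rfl
  · rw [Finset.mem_range, not_lt] at h
    rw [Polynomial.coeff_eq_zero_of_natDegree_lt (by omega), zero_pow hp]

lemma pw_map (hp : p ≠ 0) (φ : A →+* B) (f : A[X]) : (pw p f).map φ = pw p (f.map φ) := by
  ext n
  rw [Polynomial.coeff_map, pw_coeff p hp, pw_coeff p hp, Polynomial.coeff_map, map_pow]

lemma pw_eval_C (hp : p ≠ 0) (f : A[X]) : (pw p (f.map C)).eval X = pw p f := by
  rw [← pw_map p hp C, ← Polynomial.eval₂_eq_eval_map, Polynomial.eval₂_C_X]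

variable [hp : Fact p.Prime]

/-- In a domain of characteristic `p`, `nrm p y f = (f^{(p)})(y)`. -/
lemma nrm_charP_domain {D : Type*} [CommRing D] [IsDomain D] [CharP D p] (y : D) (f : D[X]) :
    nrm p y f = (pw p f).eval y := by
  have hpw : pw p f = f.map (frobenius D p) := by
    ext n
    rw [pw_coeff p hp.out.ne_zero, Polynomial.coeff_map, frobenius_def]
  have h1 : nrm p y f ^ p = ((pw p f).eval y) ^ p := by
    rw [← nrm_pow, ← Polynomial.map_frobenius_expand, Polynomial.map_expand, nrm_expand, hpw]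
  exact frobenius_inj D p h1

/-- The mod `p` congruence, universal case. -/
lemma nrm_congr_univ (d : ℕ) :
    (p : MvPolynomial (Option ℕ) ℤ) ∣
      nrm p (MvPolynomial.X none) (∑ i ∈ Finset.range (d + 1), C (MvPolynomial.X (some i)) * X ^ i) -
      (pw p (∑ i ∈ Finset.range (d + 1), C (MvPolynomial.X (some i)) * X ^ i)).eval
        (MvPolynomial.X none) := by
  have h := MvPolynomial.C_dvd_iff_zmod (σ := Option ℕ) p
    (nrm p (MvPolynomial.X none) (∑ i ∈ Finset.range (d + 1), C (MvPolynomial.X (some i)) * X ^ i) -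
      (pw p (∑ i ∈ Finset.range (d + 1), C (MvPolynomial.X (some i)) * X ^ i)).eval
        (MvPolynomial.X none))
  have h2 : (MvPolynomial.C (p : ℤ) : MvPolynomial (Option ℕ) ℤ) = (p : MvPolynomial (Option ℕ) ℤ) := by
    simp
  rw [h2] at h
  rw [h, map_sub, nrm_map, nrm_charP_domain, ← Polynomial.eval_map_apply, pw_map p hp.out.ne_zero, sub_self]

/-- The mod `p` congruence `nrm p y f = (f^{(p)})(y)`. -/
theorem nrm_congr (y : A) (f : A[X]) : (p : A) ∣ nrm p y f - (pw p f).eval y := by
  let ψ : MvPolynomial (Option ℕ) ℤ →+* A :=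
    MvPolynomial.eval₂Hom (Int.castRingHom A) (fun o => Option.elim o y f.coeff)
  have h1 := map_dvd ψ (nrm_congr_univ p f.natDegree)
  have h2 : (∑ i ∈ Finset.range (f.natDegree + 1),
      C (MvPolynomial.X (some i) : MvPolynomial (Option ℕ) ℤ) * X ^ i).map ψ = f := by
    conv_rhs => rw [f.as_sum_range_C_mul_X_pow]
    rw [Polynomial.map_sum]
    refine Finset.sum_congr rfl (fun i _ => ?_)
    simp [ψ]
  have h3 : ψ (MvPolynomial.X none) = y := by simp [ψ]
  rw [map_natCast, map_sub, nrm_map, ← Polynomial.eval_map_apply, pw_map p hp.out.ne_zero, h2, h3] at h1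
  exact h1

/-- `rel p f = f^{(p)}` mod `p`. -/
theorem rel_congr (f : A[X]) : (p : A[X]) ∣ rel p f - pw p f := by
  have h := nrm_congr p (X : A[X]) (f.map C)
  rwa [pw_eval_C p hp.out.ne_zero] at h

lemma natCast_dvd_iff_coeff (n : ℕ) (f : A[X]) : (n : A[X]) ∣ f ↔ ∀ i, (n : A) ∣ f.coeff i := by
  have : (n : A[X]) = C (n : A) := by simp
  rw [this, Polynomial.C_dvd_iff_dvd_coeff]

omit hp in
/-- A quadratic Taylor estimate. -/
lemma eval_pow_sub_eval (P : A[X]) (h : (p : A) ∣ P.coeff 1) (a : ℕ) (ha : 1 ≤ a) :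
    (p : A) ^ (a + 1) ∣ P.eval ((p : A) ^ a) - P.eval 0 := by
  have h1 := P.divX_mul_X_add
  have h2 := P.divX.divX_mul_X_add
  obtain ⟨c, hc⟩ := h
  have h3 : P.divX.coeff 0 = P.coeff 1 := by rw [Polynomial.coeff_divX]
  rw [h3] at h2
  have h4 : P.eval ((p : A) ^ a) - P.eval 0 =
      P.divX.divX.eval ((p : A) ^ a) * ((p : A) ^ a) ^ 2 + P.coeff 1 * (p : A) ^ a := by
    have e1 : P.eval ((p : A) ^ a) = P.divX.eval ((p : A) ^ a) * (p : A) ^ a + P.coeff 0 := by
      conv_lhs => rw [← h1]
      simp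
    have e2 : P.eval 0 = P.coeff 0 := by rw [Polynomial.coeff_zero_eq_eval_zero]
    have e3 : P.divX.eval ((p : A) ^ a) =
        P.divX.divX.eval ((p : A) ^ a) * (p : A) ^ a + P.coeff 1 := by
      conv_lhs => rw [← h2]
      simp
    rw [e1, e2, e3]
    ring
  rw [h4, hc]
  have e5 : ((p : A) ^ a) ^ 2 = (p : A) ^ (a + 1) * (p : A) ^ (a - 1) := by
    rw [← pow_mul, ← pow_add]
    congr 1
    omega
  rw [e5]
  refine ⟨P.divX.divX.eval ((p : A) ^ a) * (p : A) ^ (a - 1) + c, ?_⟩
  ring

/-- The key lifting property of the relative norm. -/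
theorem rel_lift (G H : A[X]) (a : ℕ) (ha : 1 ≤ a) :
    ((p ^ (a + 1) : ℕ) : A[X]) ∣ rel p (G + C ((p : A) ^ a) * H) - rel p G := by
  rw [natCast_dvd_iff_coeff]
  intro n
  -- the generic deformation
  set F : A[X][X] := G.map C + C X * H.map C with hF
  have hdiv : (p : A) ∣ ((rel p F).coeff n).coeff 1 := by
    have h1 := (natCast_dvd_iff_coeff p _).mp (rel_congr p F) n
    rw [Polynomial.coeff_sub, pw_coeff p hp.out.ne_zero] at h1
    have h2 := (natCast_dvd_iff_coeff p _).mp h1 1
    rw [Polynomial.coeff_sub] at h2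
    have h3 : (p : A) ∣ ((F.coeff n) ^ p).coeff 1 := by
      have h4 : ((F.coeff n) ^ p).coeff 1 = (derivative ((F.coeff n) ^ p)).coeff 0 := by
        rw [Polynomial.coeff_derivative]; simp
      rw [h4, Polynomial.derivative_pow]
      have h5 : (p : A[X]) ∣ C (p : A) * F.coeff n ^ (p - 1) * derivative (F.coeff n) := by
        have : (p : A[X]) = C (p : A) := by simp
        rw [this, mul_assoc]
        exact dvd_mul_right _ _
      exact (natCast_dvd_iff_coeff p _).mp h5 0
    have := dvd_add h2 h3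
    rwa [sub_add_cancel] at this
  have hev : ∀ x : A, ((rel p F).coeff n).eval x = (rel p (G + C x * H)).coeff n := by
    intro x
    have h1 := rel_map (Polynomial.evalRingHom x) p F
    have h2 : F.map (Polynomial.evalRingHom x) = G + C x * H := by
      have hid : (Polynomial.evalRingHom x).comp (C : A →+* A[X]) = RingHom.id A := by
        ext z; simp
      simp only [hF, Polynomial.map_add, Polynomial.map_mul, Polynomial.map_C, Polynomial.map_map,
        hid, Polynomial.map_id, Polynomial.coe_evalRingHom, Polynomial.eval_X]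
    rw [h2] at h1
    rw [← h1, Polynomial.coeff_map, Polynomial.coe_evalRingHom]
  have h0 := eval_pow_sub_eval p ((rel p F).coeff n) hdiv a ha
  rw [hev, hev, C_0, zero_mul, add_zero] at h0
  rw [Polynomial.coeff_sub]
  push_cast
  exact h0

/-- **Lifting lemma.** -/
theorem nrm_lift (m : ℕ) (hm : 0 < m) (j : ℕ) : ∀ (a : ℕ), 1 ≤ a → ∀ F G : A[X],
    ((p ^ a : ℕ) : A[X]) ∣ F - G → (p : A) ^ (a + j) ∣ nrm (m * p ^ j) 1 F - nrm (m * p ^ j) 1 G := by
  induction j with
  | zero =>
    intro a _ F G h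
    obtain ⟨H, hH⟩ := h
    have hF : F = G + C ((p : A) ^ a) * H := by
      have h1 : F = G + ((p ^ a : ℕ) : A[X]) * H := by rw [← hH]; ring
      rw [h1]; push_cast; simp
    rw [pow_zero, mul_one, add_zero]
    have hev : ∀ x : A, (nrm m (1 : A[X]) (G.map C + C X * H.map C)).eval x =
        nrm m 1 (G + C x * H) := by
      intro x
      have h1 := nrm_map (Polynomial.evalRingHom x) m 1 (G.map C + C X * H.map C)
      have h2 : (G.map C + C X * H.map C).map (Polynomial.evalRingHom x) = G + C x * H := by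
        have hid : (Polynomial.evalRingHom x).comp (C : A →+* A[X]) = RingHom.id A := by
          ext z; simp
        simp only [Polynomial.map_add, Polynomial.map_mul, Polynomial.map_C, Polynomial.map_map,
          hid, Polynomial.map_id, Polynomial.coe_evalRingHom, Polynomial.eval_X]
      rw [h2, map_one, Polynomial.coe_evalRingHom] at h1
      exact h1
    have h3 := Polynomial.sub_dvd_eval_sub ((p : A) ^ a) 0
      (nrm m (1 : A[X]) (G.map C + C X * H.map C))
    rw [hev, hev, C_0, zero_mul, add_zero, sub_zero] at h3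
    rwa [hF]
  | succ j ih =>
    intro a ha F G h
    have hpos : 0 < m * p ^ j := Nat.mul_pos hm (pow_pos hp.out.pos _)
    have e : m * p ^ (j + 1) = (m * p ^ j) * p := by rw [pow_succ, mul_assoc]
    rw [e, nrm_tower p (m * p ^ j) hp.out.pos hpos, nrm_tower p (m * p ^ j) hp.out.pos hpos]
    have e2 : a + (j + 1) = (a + 1) + j := by omega
    rw [e2]
    refine ih (a + 1) (by omega) _ _ ?_
    obtain ⟨H, hH⟩ := h
    have hF : F = G + C ((p : A) ^ a) * H := by
      have h1 : F = G + ((p ^ a : ℕ) : A[X]) * H := by rw [← hH]; ring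
      rw [h1]; push_cast; simp
    rw [hF]
    exact rel_lift p G H a ha

/-- **Dwork congruence** for circulant determinants. -/
theorem nrm_dwork (m : ℕ) (hm : 0 < m) (k : ℕ) (f : A[X]) :
    (p : A) ^ (k + 1) ∣ nrm (m * p ^ (k + 1)) 1 f - nrm (m * p ^ k) 1 (pw p f) := by
  have hpos : 0 < m * p ^ k := Nat.mul_pos hm (pow_pos hp.out.pos _)
  have e : m * p ^ (k + 1) = (m * p ^ k) * p := by rw [pow_succ, mul_assoc]
  rw [e, nrm_tower p (m * p ^ k) hp.out.pos hpos]
  have := nrm_lift p m hm k 1 le_rfl (rel p f) (pw p f) (by rw [pow_one]; exact rel_congr p f)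
  rwa [add_comm 1 k] at this

end Pool.Agent.H56.Circ
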