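import Pool.Agent.H56.Circ.Ghost

/-!
# Counting units of `R[X]/(X ^ n - 1)` over a finite local ring
-/

open Polynomial Matrix

namespace Pool.Agent.H56.Circ

/-- Unit counting along a surjection which reflects units. -/
lemma card_units_of_surjective {B C : Type*} [CommRing B] [CommRing C] [Finite B] [Finite C]
    (π : B →+* C) (hπ : Function.Surjective π) (hu : ∀ b, IsUnit (π b) → IsUnit b) :
    Nat.card Bˣ * Nat.card C = Nat.card B * Nat.card Cˣ := by
  classical
  obtain ⟨s, hs⟩ := hπ.hasRightInverse
  have e : B ≃ C × RingHom.ker π :=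
    { toFun := fun b => (π b, ⟨b - s (π b), by rw [RingHom.mem_ker, map_sub, hs, sub_self]⟩)
      invFun := fun x => x.2.1 + s x.1
      left_inv := fun b => by simp
      right_inv := fun x => by
        have h1 : π (x.2.1 + s x.1) = x.1 := by
          rw [map_add, hs, RingHom.mem_ker.mp x.2.2, zero_add]
        refine Prod.ext h1 (Subtype.ext ?_)
        simp only [h1, add_sub_cancel_right] }
  have e2 : Bˣ ≃ Cˣ × RingHom.ker π :=
    { toFun := fun b => (Units.map π.toMonoidHom b, ⟨b - s (π b), by rw [RingHom.mem_ker, map_sub, hs, sub_self]⟩)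
      invFun := fun x => (hu (x.2.1 + s (x.1 : C)) (by
        rw [map_add, hs, RingHom.mem_ker.mp x.2.2, zero_add]; exact x.1.isUnit)).unit
      left_inv := fun b => by
        ext; simp
      right_inv := fun x => by
        have h1 : π (x.2.1 + s (x.1 : C)) = x.1 := by
          rw [map_add, hs, RingHom.mem_ker.mp x.2.2, zero_add]
        refine Prod.ext (Units.ext ?_) (Subtype.ext ?_)
        · simp [h1]
        · simp only [IsUnit.unit_spec, h1, add_sub_cancel_right] }
  rw [Nat.card_congr e, Nat.card_congr e2, Nat.card_prod, Nat.card_prod]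
  ring

variable {R : Type*} [CommRing R]

/-- The polynomial with coefficient vector `v`. -/
noncomputable def poly {n : ℕ} (v : Fin n → R) : R[X] := ∑ i : Fin n, C (v i) * X ^ (i : ℕ)

lemma poly_degree_lt {n : ℕ} (v : Fin n → R) : (poly v).degree < n := by
  unfold poly
  refine (Polynomial.degree_sum_le _ _).trans_lt ?_
  rw [Finset.sup_lt_iff (by exact WithBot.bot_lt_coe n)]
  intro i _
  refine (Polynomial.degree_C_mul_X_pow_le _ _).trans_lt ?_
  exact_mod_cast i.2

lemma poly_coeff {n : ℕ} (v : Fin n → R) (i : Fin n) : (poly v).coeff i = v i := by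
  unfold poly
  rw [Polynomial.finsetSum_coeff]
  simp only [Polynomial.coeff_C_mul_X_pow]
  rw [Finset.sum_eq_single i]
  · simp
  · intro b _ hb
    rw [if_neg]
    intro h
    exact hb (Fin.ext h.symm)
  · simp

lemma poly_of_coeff {n : ℕ} (f : R[X]) (hf : f.degree < n) : poly (fun i : Fin n => f.coeff i) = f := by
  ext j
  rcases lt_or_ge j n with h | h
  · exact poly_coeff (fun i : Fin n => f.coeff i) ⟨j, h⟩
  · rw [Polynomial.coeff_eq_zero_of_degree_lt, Polynomial.coeff_eq_zero_of_degree_lt]
    · exact hf.trans_le (by exact_mod_cast h)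
    · exact (poly_degree_lt _).trans_le (by exact_mod_cast h)

/-- The circulant matrix (transposed convention) of a vector is the value of its polynomial at the
shift matrix. -/
lemma aeval_poly {n : ℕ} [NeZero n] (v : Fin n → R) :
    aeval (cmat n (1 : R)) (poly v) = Matrix.of fun i j => v (i - j) := by
  unfold poly
  rw [map_sum]
  ext i j
  rw [Matrix.sum_apply]
  have hi := i.2
  have hj := j.2
  have h2 : ∀ l ∈ (Finset.univ : Finset (Fin n)), (aeval (cmat n (1 : R)) (C (v l) * X ^ (l : ℕ) : R[X])) i j =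
      if l = i - j then v l else 0 := by
    intro l _
    have hl := l.2
    rw [map_mul, aeval_C, map_pow, aeval_X, Algebra.algebraMap_eq_smul_one, Matrix.smul_mul, one_mul,
      Matrix.smul_apply, cmat_pow_apply n 1 l l.2.le, smul_eq_mul]
    have h3 : (l = i - j) ↔ ((i : ℕ) = j + l ∨ (i : ℕ) + n = j + l) := by
      rw [Fin.ext_iff, Fin.val_sub]
      rcases Nat.lt_or_ge (i : ℕ) j with h3 | h3
      · rw [Nat.mod_eq_of_lt (by omega)]; omega
      · have h4 : (n - (j : ℕ) + i) = (i - j) + n := by omega
        rw [h4, Nat.add_mod_right, Nat.mod_eq_of_lt (by omega)]; omega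
    by_cases h : l = i - j
    · rw [if_pos h]
      rcases h3.mp h with h4 | h4
      · rw [if_pos h4, mul_one]
      · rw [if_neg (by omega), if_pos h4, mul_one]
    · rw [if_neg h]
      have h5 := (not_congr h3).mp h
      push Not at h5
      rw [if_neg h5.1, if_neg h5.2, mul_zero]
  rw [Finset.sum_congr rfl h2, Finset.sum_ite_eq', if_pos (Finset.mem_univ _)]
  rfl

/-- The quotient ring `R[X]/(X ^ n - 1)`. -/
abbrev Cyc (R : Type*) [CommRing R] (n : ℕ) : Type _ := R[X] ⧸ Ideal.span {(X ^ n - 1 : R[X])}

/-- The regular representation of `R[X]/(X ^ n - 1)`. -/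
noncomputable def rep (R : Type*) [CommRing R] (n : ℕ) : Cyc R n →+* Matrix (Fin n) (Fin n) R :=
  Ideal.Quotient.lift _ (aeval (cmat n (1 : R)) : R[X] →ₐ[R] _).toRingHom (by
    intro a ha
    rw [Ideal.mem_span_singleton] at ha
    obtain ⟨c, rfl⟩ := ha
    change aeval (cmat n (1 : R)) ((X ^ n - 1) * c) = 0
    rw [map_mul, map_sub, map_pow, aeval_X, cmat_pow_self, map_one, map_one, sub_self, zero_mul])

lemma rep_mk (n : ℕ) (f : R[X]) :
    rep R n (Ideal.Quotient.mk _ f) = aeval (cmat n (1 : R)) f := rfl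

/-- The bijection between vectors and `R[X]/(X ^ n - 1)`. -/
lemma mk_poly_bijective [Nontrivial R] {n : ℕ} (hn : 0 < n) : Function.Bijective
    (fun v : Fin n → R => (Ideal.Quotient.mk _ (poly v) : Cyc R n)) := by
  have : NeZero n := ⟨hn.ne'⟩
  have hmonic : (X ^ n - 1 : R[X]).Monic := Polynomial.monic_X_pow_sub_C 1 hn.ne'
  have hdeg : (X ^ n - 1 : R[X]).degree = n := Polynomial.degree_X_pow_sub_C hn 1
  constructor
  · intro v w h
    have h1 := congrArg (rep R n) h
    simp only [rep_mk, aeval_poly] at h1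
    funext i
    have h2 := congrFun (congrFun h1 i) 0
    simpa using h2
  · intro b
    obtain ⟨f, rfl⟩ := Ideal.Quotient.mk_surjective b
    refine ⟨fun i => (f %ₘ (X ^ n - 1)).coeff i, ?_⟩
    have h1 : (f %ₘ (X ^ n - 1)).degree < n := by
      rw [← hdeg]; exact Polynomial.degree_modByMonic_lt _ hmonic
    simp only [poly_of_coeff _ h1]
    rw [Ideal.Quotient.eq, Ideal.mem_span_singleton]
    have h2 := Polynomial.modByMonic_add_div f (X ^ n - 1)
    refine ⟨- (f /ₘ (X ^ n - 1)), ?_⟩
    linear_combination h2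

lemma rep_injective [Nontrivial R] {n : ℕ} (hn : 0 < n) : Function.Injective (rep R n) := by
  have : NeZero n := ⟨hn.ne'⟩
  intro b c h
  obtain ⟨v, rfl⟩ := (mk_poly_bijective hn).2 b
  obtain ⟨w, rfl⟩ := (mk_poly_bijective hn).2 c
  simp only [rep_mk, aeval_poly] at h
  congr 2
  funext i
  have h2 := congrFun (congrFun h i) 0
  simpa using h2

lemma card_cyc [Nontrivial R] {n : ℕ} (hn : 0 < n) : Nat.card (Cyc R n) = Nat.card R ^ n := by
  rw [← Nat.card_congr (Equiv.ofBijective _ (mk_poly_bijective (R := R) hn)), Nat.card_fun]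
  simp

instance finite_cyc [Finite R] [Nontrivial R] (n : ℕ) [NeZero n] : Finite (Cyc R n) :=
  Finite.of_surjective _ (mk_poly_bijective (R := R) (NeZero.pos n)).2

/-- Units of `R[X]/(X ^ n - 1)` are detected by the determinant. -/
lemma isUnit_iff_det [Finite R] [Nontrivial R] (n : ℕ) [NeZero n] (b : Cyc R n) :
    IsUnit b ↔ IsUnit (rep R n b).det := by
  constructor
  · intro h
    exact (Matrix.isUnit_iff_isUnit_det _).mp (h.map (rep R n))
  · intro h
    have h1 : IsUnit (rep R n b) := (Matrix.isUnit_iff_isUnit_det _).mpr h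
    have h2 : Function.Injective (fun x : Cyc R n => b * x) := by
      intro x y hxy
      have h3 := congrArg (rep R n) hxy
      simp only [map_mul] at h3
      exact rep_injective (NeZero.pos n) (h1.mul_left_cancel h3)
    obtain ⟨x, hx⟩ := (Finite.injective_iff_surjective.mp h2) 1
    exact IsUnit.of_mul_eq_one x hx

end Pool.Agent.H56.Circ
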