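import Pool.Agent.H56.Circ.Units

/-!
# Regrouping the irreducible factors of `X ^ m - 1` by cyclotomic polynomials
-/

open Polynomial Matrix UniqueFactorizationMonoid

namespace Pool.Agent.H56.Circ

variable {F : Type*} [Field F] [Finite F]

/-- The product over irreducible factors of `X ^ m - 1`, regrouped. -/
theorem prod_irrFactors (p : ℕ) [hp : Fact p.Prime] [CharP F p] (m : ℕ) (hm : 0 < m)
    (hmp : Nat.Coprime m p) (w : ℕ → ℚ) :
    ∏ g ∈ irrFactors F m, w g.natDegree =
      ∏ d ∈ m.divisors, w (orderOf ((Nat.card F : ℕ) : ZMod d)) ^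
        (d.totient / orderOf ((Nat.card F : ℕ) : ZMod d)) := by
  classical
  have := Fintype.ofFinite F
  obtain ⟨f, hf, hcard⟩ := FiniteField.card F p
  have hcard' : Nat.card F = p ^ (f : ℕ) := by rw [Nat.card_eq_fintype_card, hcard]
  have hmF : (m : F) ≠ 0 := by
    intro h
    rw [CharP.cast_eq_zero_iff F p] at h
    have := Nat.eq_one_of_dvd_coprimes hmp h (dvd_refl p)
    exact hp.out.one_lt.ne' this
  have hne : (X ^ m - 1 : F[X]) ≠ 0 := X_pow_sub_one_ne_zero' hm
  have hprod := prod_cyclotomic_eq_X_pow_sub_one hm F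
  have hS : irrFactors F m = m.divisors.biUnion
      (fun d => (normalizedFactors (cyclotomic d F)).toFinset) := by
    ext g
    rw [mem_irrFactors hm, Finset.mem_biUnion]
    constructor
    · rintro ⟨h1, h2, h3⟩
      rw [← hprod, Prime.dvd_finsetProd_iff h1.prime] at h3
      obtain ⟨d, hd, h4⟩ := h3
      refine ⟨d, hd, ?_⟩
      rw [Multiset.mem_toFinset, mem_normalizedFactors_iff' (cyclotomic_ne_zero d F)]
      exact ⟨h1, h2.normalize_eq_self, h4⟩
    · rintro ⟨d, hd, h4⟩
      rw [Multiset.mem_toFinset, mem_normalizedFactors_iff' (cyclotomic_ne_zero d F)] at h4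
      refine ⟨h4.1, (Polynomial.normalize_eq_self_iff_monic h4.1.ne_zero).mp h4.2.1, ?_⟩
      rw [← hprod]
      exact h4.2.2.trans (Finset.dvd_prod_of_mem _ hd)
  have hsq : Squarefree (X ^ m - 1 : F[X]) :=
    (Polynomial.separable_X_pow_sub_C (1 : F) hmF one_ne_zero).squarefree
  have hdisj : Set.PairwiseDisjoint (↑m.divisors : Set ℕ)
      (fun d => (normalizedFactors (cyclotomic d F)).toFinset) := by
    intro d hd e he hde
    rw [Function.onFun, Finset.disjoint_left]
    intro g hg hg'
    rw [Multiset.mem_toFinset, mem_normalizedFactors_iff' (cyclotomic_ne_zero _ F)] at hg hg'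
    have h1 : g * g ∣ X ^ m - 1 := by
      rw [← hprod]
      have h2 : cyclotomic d F * cyclotomic e F ∣ ∏ i ∈ m.divisors, cyclotomic i F := by
        rw [← Finset.prod_pair (f := fun i => cyclotomic i F) hde]
        exact Finset.prod_dvd_prod_of_subset _ _ _ (by
          intro x hx
          rw [Finset.mem_insert, Finset.mem_singleton] at hx
          rcases hx with rfl | rfl
          · exact hd
          · exact he)
      exact (mul_dvd_mul hg.2.2 hg'.2.2).trans h2
    exact hg.1.not_isUnit (hsq g h1)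
  rw [hS, Finset.prod_biUnion hdisj]
  refine Finset.prod_congr rfl (fun d hd => ?_)
  have hdm : d ∣ m := Nat.dvd_of_mem_divisors hd
  have hpd : p.Coprime d := (Nat.Coprime.coprime_dvd_left hdm hmp).symm
  have hord : orderOf (ZMod.unitOfCoprime _ (hpd.pow_left (f : ℕ))) =
      orderOf ((Nat.card F : ℕ) : ZMod d) := by
    rw [← orderOf_units, ZMod.coe_unitOfCoprime, hcard']
  have hdeg : ∀ g ∈ (normalizedFactors (cyclotomic d F)).toFinset,
      w g.natDegree = w (orderOf ((Nat.card F : ℕ) : ZMod d)) := by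
    intro g hg
    rw [Multiset.mem_toFinset] at hg
    rw [natDegree_of_mem_normalizedFactors_cyclotomic hcard hpd hg, hord]
  rw [Finset.prod_congr rfl hdeg, Finset.prod_const, normalizedFactors_cyclotomic_card hcard hpd, hord]

end Pool.Agent.H56.Circ
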