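import Mathlib

/-!
# Definitions for problem MP_d6eb29_al (circulant matrices with prescribed unit determinant)
-/

namespace Pool.Agent.H56.Circ

/-- The circulant matrix `cir(a₀, ..., a_{n-1})`: the first row is `(a₀, ..., a_{n-1})` and each
later row is the cyclic shift one place to the right of the row above, i.e. entry `(i, j)` is
`a_{(j - i) mod n}` (subtraction in `Fin n` is subtraction modulo `n`). -/
def cir {n : ℕ} [NeZero n] {R : Type*} (a : Fin n → R) : Matrix (Fin n) (Fin n) R :=
  Matrix.of fun i j => a (j - i)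

/-- `numCirc n R a` is `c_n(R, a)`: the number of `n × n` circulant matrices over `R` with
determinant `a`. -/
noncomputable def numCirc (n : ℕ) [NeZero n] (R : Type*) [CommRing R] (a : R) : ℕ :=
  Nat.card {A : Matrix (Fin n) (Fin n) R // A ∈ Set.range (cir : (Fin n → R) → _) ∧ A.det = a}

/-- `ghostSet p k R` is the set of all elements
`α₀^(p^k) + p α₁^(p^(k-1)) + p² α₂^(p^(k-2)) + ... + p^k α_k` of `R`, `α₀, ..., α_k ∈ R`. -/
def ghostSet (p k : ℕ) (R : Type*) [CommRing R] : Set R :=
  {x | ∃ α : ℕ → R, x = ∑ i ∈ Finset.range (k + 1), (p : R) ^ i * α i ^ (p ^ (k - i))}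

end Pool.Agent.H56.Circ
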