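import Pool.Agent.H56.Circ.Congr

/-!
# Norms are ghost components, and conversely
-/

open Polynomial Matrix

namespace Pool.Agent.H56.Circ

variable {A B : Type*} [CommRing A] [CommRing B] (p : ℕ)

/-- The `k`-th ghost (Witt) polynomial `∑_{i ≤ k} p^i α_i^(p^(k-i))`. -/
def gh (k : ℕ) (α : ℕ → A) : A := ∑ i ∈ Finset.range (k + 1), (p : A) ^ i * α i ^ (p ^ (k - i))

lemma gh_map (φ : A →+* B) (k : ℕ) (α : ℕ → A) : φ (gh p k α) = gh p k (fun i => φ (α i)) := by
  unfold gh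
  rw [map_sum]
  refine Finset.sum_congr rfl (fun i _ => ?_)
  simp

lemma gh_congr {k : ℕ} {α β : ℕ → A} (h : ∀ i ≤ k, α i = β i) : gh p k α = gh p k β := by
  unfold gh
  refine Finset.sum_congr rfl (fun i hi => ?_)
  rw [h i (by rw [Finset.mem_range] at hi; omega)]

lemma gh_succ (k : ℕ) (α : ℕ → A) :
    gh p (k + 1) α = gh p k (fun i => α i ^ p) + (p : A) ^ (k + 1) * α (k + 1) := by
  unfold gh
  rw [Finset.sum_range_succ, Nat.sub_self, pow_zero, pow_one]
  congr 1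
  refine Finset.sum_congr rfl (fun i hi => ?_)
  rw [Finset.mem_range] at hi
  rw [← pow_mul, ← pow_succ']
  congr 3
  omega

variable [hp : Fact p.Prime]

omit hp in
lemma gh_congr_mod (k : ℕ) (α β : ℕ → A) (h : ∀ i, (p : A) ∣ α i - β i) :
    (p : A) ^ (k + 1) ∣ gh p k α - gh p k β := by
  unfold gh
  rw [← Finset.sum_sub_distrib]
  refine Finset.dvd_sum (fun i hi => ?_)
  rw [Finset.mem_range] at hi
  rw [← mul_sub]
  have h1 := dvd_sub_pow_of_dvd_sub (h i) (k - i)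
  have e : (p : A) ^ (k + 1) = (p : A) ^ i * (p : A) ^ (k - i + 1) := by
    rw [← pow_add]; congr 1; omega
  rw [e]
  exact mul_dvd_mul_left _ h1

/-- The Frobenius lift on integral polynomials. -/
lemma expand_congr {σ : Type*} (a : MvPolynomial σ ℤ) :
    (p : MvPolynomial σ ℤ) ∣ MvPolynomial.expand p a - a ^ p := by
  have h := MvPolynomial.C_dvd_iff_zmod (σ := σ) p (MvPolynomial.expand p a - a ^ p)
  have h2 : (MvPolynomial.C (p : ℤ) : MvPolynomial σ ℤ) = (p : MvPolynomial σ ℤ) := by simp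
  rw [h2] at h
  rw [h, map_sub, MvPolynomial.map_expand, MvPolynomial.expand_zmod, map_pow, sub_self]

lemma expand_congr_poly {σ : Type*} (g : (MvPolynomial σ ℤ)[X]) :
    (p : (MvPolynomial σ ℤ)[X]) ∣
      g.map (MvPolynomial.expand p : MvPolynomial σ ℤ →ₐ[ℤ] MvPolynomial σ ℤ).toRingHom - pw p g := by
  rw [natCast_dvd_iff_coeff]
  intro i
  rw [Polynomial.coeff_sub, pw_coeff p hp.out.ne_zero, Polynomial.coeff_map]
  exact expand_congr p (g.coeff i)

/-- Congruence between consecutive norms, with the Frobenius lift. -/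
lemma nrm_frob {σ : Type*} (m : ℕ) (hm : 0 < m) (k : ℕ) (g : (MvPolynomial σ ℤ)[X]) :
    (p : MvPolynomial σ ℤ) ^ (k + 1) ∣ nrm (m * p ^ (k + 1)) 1 g -
      MvPolynomial.expand p (nrm (m * p ^ k) 1 g) := by
  have h1 := nrm_dwork p m hm k g
  have h2 := nrm_lift p m hm k 1 le_rfl (pw p g)
    (g.map (MvPolynomial.expand p : MvPolynomial σ ℤ →ₐ[ℤ] MvPolynomial σ ℤ).toRingHom) (by
      rw [pow_one, ← dvd_neg, neg_sub]
      exact expand_congr_poly p g)
  rw [add_comm 1 k] at h2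
  have h3 := dvd_add h1 h2
  have h4 := nrm_map (MvPolynomial.expand p : MvPolynomial σ ℤ →ₐ[ℤ] MvPolynomial σ ℤ).toRingHom
    (m * p ^ k) 1 g
  rw [map_one] at h4
  rw [← h4] at h3
  have e : ∀ x : MvPolynomial σ ℤ,
    (MvPolynomial.expand p : MvPolynomial σ ℤ →ₐ[ℤ] MvPolynomial σ ℤ).toRingHom x =
      MvPolynomial.expand p x := fun _ => rfl
  rw [e] at h3
  convert h3 using 1
  ring

/-- In the universal case the norms of all levels are ghost components. -/
lemma nrm_eq_gh_univ {σ : Type*} (m : ℕ) (hm : 0 < m) (g : (MvPolynomial σ ℤ)[X]) (k : ℕ) :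
    ∃ α : ℕ → MvPolynomial σ ℤ, ∀ j ≤ k, nrm (m * p ^ j) 1 g = gh p j α := by
  induction k with
  | zero =>
    refine ⟨fun _ => nrm m 1 g, fun j hj => ?_⟩
    have : j = 0 := by omega
    subst this
    simp [gh]
  | succ k ih =>
    obtain ⟨α, hα⟩ := ih
    have h1 := nrm_frob p m hm k g
    rw [hα k le_rfl] at h1
    have h2 : MvPolynomial.expand p (gh p k α) = gh p k (fun i => MvPolynomial.expand p (α i)) :=
      gh_map p (MvPolynomial.expand p : MvPolynomial σ ℤ →ₐ[ℤ] MvPolynomial σ ℤ).toRingHom k α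
    rw [h2] at h1
    have h3 := gh_congr_mod p k (fun i => MvPolynomial.expand p (α i)) (fun i => α i ^ p)
      (fun i => expand_congr p (α i))
    obtain ⟨c, hc⟩ := dvd_add h1 h3
    refine ⟨fun i => if i = k + 1 then c else α i, fun j hj => ?_⟩
    rcases Nat.eq_or_lt_of_le hj with h4 | h4
    · subst h4
      rw [gh_succ, if_pos rfl]
      have h5 : gh p k (fun i => (if i = k + 1 then c else α i) ^ p) = gh p k (fun i => α i ^ p) := by
        refine gh_congr p (fun i hi => ?_)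
        rw [if_neg (by omega)]
      rw [h5, ← hc]
      ring
    · rw [hα j (by omega)]
      refine gh_congr p (fun i hi => ?_)
      rw [if_neg (by omega)]

/-- **Upper bound for the image.** Every norm is a ghost component. -/
theorem nrm_mem_gh (m : ℕ) (hm : 0 < m) (k : ℕ) (f : A[X]) :
    ∃ α : ℕ → A, nrm (m * p ^ k) 1 f = gh p k α := by
  let g : (MvPolynomial ℕ ℤ)[X] :=
    ∑ i ∈ Finset.range (f.natDegree + 1), C (MvPolynomial.X i) * X ^ i
  let ψ : MvPolynomial ℕ ℤ →+* A := MvPolynomial.eval₂Hom (Int.castRingHom A) f.coeff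
  have h2 : g.map ψ = f := by
    conv_rhs => rw [f.as_sum_range_C_mul_X_pow]
    simp only [g]
    rw [Polynomial.map_sum]
    refine Finset.sum_congr rfl (fun i _ => ?_)
    simp [ψ]
  obtain ⟨α, hα⟩ := nrm_eq_gh_univ p m hm g k
  refine ⟨fun i => ψ (α i), ?_⟩
  rw [← gh_map, ← hα k le_rfl, nrm_map, map_one, h2]

/-- Norm of `1 + b (1 + X + ... + X^(N-1))`. -/
lemma nrm_one_add (N : ℕ) (b : A) :
    nrm N 1 (1 + C b * ∑ i ∈ Finset.range N, X ^ i) = 1 + N * b := by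
  unfold nrm
  have h1 : aeval (cmat N (1 : A)) (∑ i ∈ Finset.range N, X ^ i : A[X]) =
      Matrix.of fun _ _ => (1 : A) := by
    rw [map_sum]
    ext i j
    rw [Matrix.sum_apply]
    have hi := i.2
    have hj := j.2
    have h2 : ∀ l ∈ Finset.range N, (aeval (cmat N (1 : A)) (X ^ l : A[X])) i j =
        if l = ((i : ℕ) + N - j) % N then 1 else 0 := by
      intro l hl
      rw [Finset.mem_range] at hl
      rw [map_pow, aeval_X, cmat_pow_apply N 1 l hl.le]
      rcases Nat.lt_or_ge (i : ℕ) j with h3 | h3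
      · rw [Nat.mod_eq_of_lt (by omega)]
        split_ifs <;> first | rfl | omega
      · have h4 : ((i : ℕ) + N - j) = (i - j) + N := by omega
        rw [h4, Nat.add_mod_right, Nat.mod_eq_of_lt (by omega)]
        split_ifs <;> first | rfl | omega
    rw [Finset.sum_congr rfl h2, Finset.sum_ite_eq', if_pos (Finset.mem_range.mpr
      (Nat.mod_lt _ (by omega)))]
    rfl
  have h2 : aeval (cmat N (1 : A)) (1 + C b * ∑ i ∈ Finset.range N, X ^ i : A[X]) =
      1 + Matrix.replicateCol Unit (fun _ : Fin N => b) * Matrix.replicateRow Unit (fun _ : Fin N => (1 : A)) := by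
    rw [map_add, map_one, map_mul, h1, aeval_C]
    congr 1
    ext i j
    rw [Algebra.algebraMap_eq_smul_one, Matrix.smul_mul, one_mul, Matrix.smul_apply]
    simp [Matrix.mul_apply]
  rw [h2, Matrix.det_one_add_replicateCol_mul_replicateRow]
  simp [dotProduct]

omit hp in
lemma exists_inv_mod (ν : A) (s : ℕ) (h : (p : A) ∣ ν - 1) : ∃ ν' : A, (p : A) ^ s ∣ ν * ν' - 1 := by
  refine ⟨∑ i ∈ Finset.range s, (1 - ν) ^ i, ?_⟩
  have h1 := mul_neg_geom_sum (1 - ν) s
  have h2 : (1 - (1 - ν)) = ν := by ring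
  rw [h2] at h1
  rw [h1]
  have h3 : (1 - (1 - ν) ^ s - 1) = - (1 - ν) ^ s := by ring
  rw [h3, dvd_neg]
  refine pow_dvd_pow_of_dvd ?_ s
  rw [← dvd_neg, neg_sub]
  exact h

omit hp in
lemma exists_inv_nat (m s : ℕ) (h : Nat.Coprime m p) : ∃ m' : A, (p : A) ^ s ∣ (m : A) * m' - 1 := by
  have h1 : IsCoprime (m : ℤ) ((p ^ s : ℕ) : ℤ) :=
    Nat.isCoprime_iff_coprime.mpr (Nat.Coprime.pow_right s h)
  obtain ⟨a, b, hab⟩ := h1
  refine ⟨(a : A), (-b : A), ?_⟩
  have h2 := congrArg (Int.cast : ℤ → A) hab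
  push_cast at h2
  linear_combination h2

/-- The universal point `(1, X₁, X₂, ...)`. -/
noncomputable def bet (i : ℕ) : MvPolynomial ℕ ℤ := if i = 0 then 1 else MvPolynomial.X i

omit hp in
lemma expand_bet (i : ℕ) : MvPolynomial.expand p (bet i) = bet i ^ p := by
  unfold bet
  split_ifs
  · simp
  · simp

omit hp in
lemma gh_bet_mod (k : ℕ) : (p : MvPolynomial ℕ ℤ) ∣ gh p k bet - 1 := by
  unfold gh
  rw [Finset.sum_range_succ']
  simp only [bet, if_true, one_pow, pow_zero, mul_one]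
  rw [add_sub_cancel_right]
  refine Finset.dvd_sum (fun i _ => ?_)
  rw [pow_succ', mul_assoc]
  exact dvd_mul_right _ _

/-- **Lower bound for the image**, universal case, modulo `p ^ s`. -/
lemma exists_nrm_univ (m : ℕ) (hm : 0 < m) (hmp : Nat.Coprime m p) (k : ℕ) : ∀ s : ℕ,
    ∃ g : (MvPolynomial ℕ ℤ)[X], (p : MvPolynomial ℕ ℤ) ^ s ∣ nrm (m * p ^ k) 1 g - gh p k bet := by
  induction k with
  | zero =>
    intro s
    refine ⟨1, ?_⟩
    rw [nrm_one]
    simp [gh, bet]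
  | succ k ih =>
    intro s
    obtain ⟨g, hg⟩ := ih (max s (k + 1))
    have hg1 : (p : MvPolynomial ℕ ℤ) ^ (k + 1) ∣ nrm (m * p ^ k) 1 g - gh p k bet :=
      (pow_dvd_pow _ (le_max_right _ _)).trans hg
    -- apply the Frobenius lift
    have hg2 := map_dvd (MvPolynomial.expand p : MvPolynomial ℕ ℤ →ₐ[ℤ] MvPolynomial ℕ ℤ).toRingHom hg1
    rw [map_pow, map_natCast, map_sub, gh_map] at hg2
    have e : ∀ x : MvPolynomial ℕ ℤ,
      (MvPolynomial.expand p : MvPolynomial ℕ ℤ →ₐ[ℤ] MvPolynomial ℕ ℤ).toRingHom x =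
        MvPolynomial.expand p x := fun _ => rfl
    simp only [e, expand_bet] at hg2
    have hg3 := nrm_frob p m hm k g
    have hg4 := dvd_add hg3 hg2
    have hg5 : (p : MvPolynomial ℕ ℤ) ^ (k + 1) ∣ gh p (k + 1) bet - nrm (m * p ^ (k + 1)) 1 g := by
      rw [gh_succ]
      have h6 := dvd_sub (dvd_mul_right ((p : MvPolynomial ℕ ℤ) ^ (k + 1)) (bet (k + 1))) hg4
      convert h6 using 1
      ring
    obtain ⟨c, hc⟩ := hg5
    set ν := nrm (m * p ^ (k + 1)) 1 g with hν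
    have hν1 : (p : MvPolynomial ℕ ℤ) ∣ ν - 1 := by
      have h7 := gh_bet_mod p (k + 1)
      have h8 : (p : MvPolynomial ℕ ℤ) ∣ (p : MvPolynomial ℕ ℤ) ^ (k + 1) * c := by
        rw [pow_succ', mul_assoc]; exact dvd_mul_right _ _
      rw [← hc] at h8
      have h9 := dvd_sub h7 h8
      convert h9 using 1
      ring
    obtain ⟨ν', hν'⟩ := exists_inv_mod p ν s hν1
    obtain ⟨m', hm'⟩ := exists_inv_nat (A := MvPolynomial ℕ ℤ) p m s hmp
    refine ⟨g * (1 + C (m' * c * ν') * ∑ i ∈ Finset.range (m * p ^ (k + 1)), X ^ i), ?_⟩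
    rw [nrm_mul, nrm_one_add, ← hν]
    obtain ⟨x, hx⟩ := hν'
    obtain ⟨y, hy⟩ := hm'
    have hτ : gh p (k + 1) bet = ν + (p : MvPolynomial ℕ ℤ) ^ (k + 1) * c := by
      rw [← hc]; ring
    rw [hτ]
    have hx' : ν * ν' = 1 + (p : MvPolynomial ℕ ℤ) ^ s * x := by rw [← hx]; ring
    have hy' : (m : MvPolynomial ℕ ℤ) * m' = 1 + (p : MvPolynomial ℕ ℤ) ^ s * y := by rw [← hy]; ring
    refine ⟨(p : MvPolynomial ℕ ℤ) ^ (k + 1) * c * (x + y + (p : MvPolynomial ℕ ℤ) ^ s * x * y), ?_⟩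
    push_cast
    have e3 : ν * (1 + (m : MvPolynomial ℕ ℤ) * (p : MvPolynomial ℕ ℤ) ^ (k + 1) * (m' * c * ν')) -
        (ν + (p : MvPolynomial ℕ ℤ) ^ (k + 1) * c) =
        (p : MvPolynomial ℕ ℤ) ^ (k + 1) * c * ((ν * ν') * ((m : MvPolynomial ℕ ℤ) * m') - 1) := by
      ring
    rw [e3, hx', hy']
    ring

/-- Norm of a substitution `X ↦ X ^ (p ^ k)`. -/
lemma nrm_expand_pow (m : ℕ) (hm : 0 < m) (k : ℕ) (f : A[X]) :
    nrm (m * p ^ k) 1 (expand A (p ^ k) f) = nrm m 1 f ^ (p ^ k) := by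
  induction k with
  | zero => simp
  | succ k ih =>
    have hpos : 0 < m * p ^ k := Nat.mul_pos hm (pow_pos hp.out.pos _)
    have e : m * p ^ (k + 1) = (m * p ^ k) * p := by rw [pow_succ, mul_assoc]
    rw [e, nrm_tower p (m * p ^ k) hp.out.pos hpos, pow_succ', ← Polynomial.expand_expand, rel_expand,
      nrm_pow, ih, ← pow_mul, mul_comm (p ^ k) p]

/-- **Lower bound for the image.** If `p` is nilpotent in `A`, every unit which is a `k`-th ghost
component is a norm. -/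
theorem exists_nrm_eq_gh (m : ℕ) (hm : 0 < m) (hmp : Nat.Coprime m p) (s : ℕ)
    (hs : (p : A) ^ s = 0) (k : ℕ) (α : ℕ → A) (h0 : IsUnit (α 0)) :
    ∃ f : A[X], nrm (m * p ^ k) 1 f = gh p k α := by
  obtain ⟨u, hu⟩ := h0
  obtain ⟨g, hg⟩ := exists_nrm_univ p m hm hmp k s
  obtain ⟨m', hm'⟩ := exists_inv_nat (A := A) p m s hmp
  rw [hs, zero_dvd_iff, sub_eq_zero] at hm'
  let ψ : MvPolynomial ℕ ℤ →+* A := MvPolynomial.eval₂Hom (Int.castRingHom A)
    (fun i => α i * (↑(u⁻¹) : A) ^ (p ^ i))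
  have h1 := map_dvd ψ hg
  rw [map_pow, map_natCast, hs, zero_dvd_iff, map_sub, sub_eq_zero, nrm_map, map_one, gh_map] at h1
  refine ⟨expand A (p ^ k) (1 + C (m' * (α 0 - 1)) * ∑ i ∈ Finset.range m, X ^ i) * g.map ψ, ?_⟩
  rw [nrm_mul, nrm_expand_pow p m hm, nrm_one_add, h1]
  have h2 : 1 + (m : A) * (m' * (α 0 - 1)) = α 0 := by
    rw [← mul_assoc, hm']; ring
  rw [h2]
  unfold gh
  rw [Finset.mul_sum]
  refine Finset.sum_congr rfl (fun i hi => ?_)
  rw [Finset.mem_range] at hi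
  have hui : (↑u : A) * ↑(u⁻¹) = 1 := Units.mul_inv u
  have e : p ^ k = p ^ i * p ^ (k - i) := by rw [← pow_add]; congr 1; omega
  by_cases hi0 : i = 0
  · subst hi0
    simp [bet]
  · have h3 : ψ (bet i) = α i * (↑(u⁻¹) : A) ^ (p ^ i) := by
      simp [bet, hi0, ψ]
    beta_reduce
    rw [h3, mul_pow, ← pow_mul, ← e]
    have h4 : α 0 ^ (p ^ k) * (↑(u⁻¹) : A) ^ (p ^ k) = 1 := by
      rw [← hu, ← mul_pow, hui, one_pow]
    calc α 0 ^ p ^ k * ((p : A) ^ i * (α i ^ p ^ (k - i) * (↑u⁻¹ : A) ^ p ^ k))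
        = (α 0 ^ p ^ k * (↑u⁻¹ : A) ^ p ^ k) * ((p : A) ^ i * α i ^ p ^ (k - i)) := by ring
      _ = (p : A) ^ i * α i ^ p ^ (k - i) := by rw [h4, one_mul]

end Pool.Agent.H56.Circ
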