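import Pool.Agent.H56.Circ.Defs
import Pool.Agent.H56.Circ.Cyclo

/-!
# The count of circulant matrices with prescribed unit determinant over a finite local ring
-/

open Polynomial Matrix

namespace Pool.Agent.H56.Circ

section general

variable {R : Type*} [CommRing R]

/-- The subring of `k`-th ghost components. -/
noncomputable def ghostSubring (p : ℕ) [Fact p.Prime] (k : ℕ) (R : Type*) [CommRing R] : Subring R :=
  (WittVector.ghostComponent (p := p) (R := R) k).range

lemma mem_ghostSubring (p : ℕ) [hp : Fact p.Prime] (k : ℕ) (x : R) :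
    x ∈ ghostSubring p k R ↔ ∃ α : ℕ → R, x = gh p k α := by
  have h : ∀ w : WittVector p R, WittVector.ghostComponent k w = gh p k w.coeff := by
    intro w
    rw [WittVector.ghostComponent_apply, wittPolynomial_eq_sum_C_mul_X_pow]
    simp [gh]
  unfold ghostSubring
  rw [RingHom.mem_range]
  constructor
  · rintro ⟨w, rfl⟩
    exact ⟨w.coeff, h w⟩
  · rintro ⟨α, rfl⟩
    exact ⟨WittVector.mk p α, h _⟩

lemma coe_ghostSubring (p : ℕ) [hp : Fact p.Prime] (k : ℕ) :
    (ghostSubring p k R : Set R) = ghostSet p k R := by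
  ext x
  exact mem_ghostSubring p k x

/-- The set of circulants of determinant `a` in bijection with elements of `R[X]/(X^n - 1)`. -/
lemma numCirc_eq [Nontrivial R] (n : ℕ) [NeZero n] (a : R) :
    numCirc n R a = Nat.card {b : Cyc R n // (rep R n b).det = a} := by
  unfold numCirc
  have hcir : ∀ v : Fin n → R, (rep R n (Ideal.Quotient.mk _ (poly v)))ᵀ = cir v := by
    intro v
    rw [rep_mk, aeval_poly]
    rfl
  refine (Nat.card_congr (Equiv.ofBijective
    (fun b : {b : Cyc R n // (rep R n b).det = a} =>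
      (⟨(rep R n b.1)ᵀ, ?_, ?_⟩ : {A : Matrix (Fin n) (Fin n) R // A ∈ Set.range (cir : (Fin n → R) → _) ∧ A.det = a})) ⟨?_, ?_⟩)).symm
  · obtain ⟨v, hv⟩ := (mk_poly_bijective (R := R) (NeZero.pos n)).2 b.1
    simp only at hv
    rw [← hv]
    exact ⟨v, (hcir v).symm⟩
  · rw [Matrix.det_transpose]; exact b.2
  · intro b c hbc
    have h1 : (rep R n b.1)ᵀ = (rep R n c.1)ᵀ := congrArg Subtype.val hbc
    exact Subtype.ext (rep_injective (NeZero.pos n) (Matrix.transpose_injective h1))
  · rintro ⟨A, ⟨v, rfl⟩, hA⟩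
    refine ⟨⟨Ideal.Quotient.mk _ (poly v), ?_⟩, ?_⟩
    · rw [← Matrix.det_transpose, hcir v]; exact hA
    · exact Subtype.ext (hcir v)

/-- The determinant as a monoid homomorphism. -/
noncomputable def detHom (R : Type*) [CommRing R] (n : ℕ) : Cyc R n →* R :=
  Matrix.detMonoidHom.comp (rep R n).toMonoidHom

lemma detHom_apply (n : ℕ) (b : Cyc R n) : detHom R n b = (rep R n b).det := rfl

lemma detHom_mk (n : ℕ) (f : R[X]) : detHom R n (Ideal.Quotient.mk _ f) = nrm n 1 f := rfl

end general

section local_ring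

variable {R : Type*} [CommRing R] [IsLocalRing R] [Finite R] (p : ℕ) [hp : Fact p.Prime]
  [hchar : CharP (IsLocalRing.ResidueField R) p]

omit hp in
include hchar in
lemma exists_pow_eq_zero : ∃ s, (p : R) ^ s = 0 := by
  have h1 : (p : R) ∈ IsLocalRing.maximalIdeal R := by
    rw [← IsLocalRing.residue_eq_zero_iff, map_natCast]
    exact CharP.cast_eq_zero _ p
  exact isNilpotent_of_mem_maximalIdeal _ h1

/-- The set of unit determinants. -/
lemma exists_detHom_eq_iff (m k : ℕ) (hm : 0 < m) (hmp : Nat.Coprime m p) (a : R) (ha : IsUnit a) :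
    (∃ b : Cyc R (m * p ^ k), detHom R _ b = a) ↔ a ∈ ghostSubring p k R := by
  rw [mem_ghostSubring]
  constructor
  · rintro ⟨b, hb⟩
    obtain ⟨f, rfl⟩ := Ideal.Quotient.mk_surjective b
    rw [detHom_mk] at hb
    obtain ⟨α, hα⟩ := nrm_mem_gh p m hm k f
    exact ⟨α, by rw [← hα, hb]⟩
  · rintro ⟨α, hα⟩
    obtain ⟨s, hs⟩ := exists_pow_eq_zero (R := R) p
    have h0 : IsUnit (α 0) := by
      by_contra h
      have h1 : α 0 ∈ IsLocalRing.maximalIdeal R := (IsLocalRing.mem_maximalIdeal _).mpr h
      have h2 : (p : R) ∈ IsLocalRing.maximalIdeal R := by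
        rw [← IsLocalRing.residue_eq_zero_iff, map_natCast]
        exact CharP.cast_eq_zero _ p
      have h3 : a ∈ IsLocalRing.maximalIdeal R := by
        rw [hα]
        unfold gh
        refine Ideal.sum_mem _ (fun i _ => ?_)
        rcases Nat.eq_zero_or_pos i with h4 | h4
        · subst h4
          exact Ideal.mul_mem_left _ _ (Ideal.pow_mem_of_mem _ h1 _ (pow_pos hp.out.pos _))
        · exact Ideal.mul_mem_right _ _ (Ideal.pow_mem_of_mem _ h2 _ h4)
      exact ((IsLocalRing.mem_maximalIdeal _).mp h3) ha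
    obtain ⟨f, hf⟩ := exists_nrm_eq_gh p m hm hmp s hs k α h0
    exact ⟨Ideal.Quotient.mk _ f, by rw [detHom_mk, hf, hα]⟩

/-- The number of units in the ghost subring. -/
lemma card_units_ghost (k : ℕ) :
    Nat.card {u : Rˣ // (u : R) ∈ ghostSubring p k R} * Nat.card (IsLocalRing.ResidueField R) =
      Nat.card (ghostSubring p k R) * (Nat.card (IsLocalRing.ResidueField R) - 1) := by
  have hfinF : Finite (IsLocalRing.ResidueField R) :=
    Finite.of_surjective _ (IsLocalRing.residue_surjective (R := R))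
  let π : ghostSubring p k R →+* IsLocalRing.ResidueField R :=
    (IsLocalRing.residue R).comp (ghostSubring p k R).subtype
  have hπ : Function.Surjective π := by
    intro y
    obtain ⟨z, hz⟩ := (iterateFrobeniusEquiv (IsLocalRing.ResidueField R) p k).surjective y
    obtain ⟨r, rfl⟩ := IsLocalRing.residue_surjective z
    have hmem : r ^ (p ^ k) ∈ ghostSubring p k R := by
      rw [mem_ghostSubring]
      refine ⟨fun i => if i = 0 then r else 0, ?_⟩
      unfold gh
      rw [Finset.sum_range_succ']
      have : ∀ i ∈ Finset.range k, (p : R) ^ (i + 1) * (if i + 1 = 0 then r else 0) ^ p ^ (k - (i + 1)) = 0 := by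
        intro i _
        rw [if_neg (by omega), zero_pow (pow_pos hp.out.pos _).ne', mul_zero]
      rw [Finset.sum_eq_zero this]
      simp
    refine ⟨⟨_, hmem⟩, ?_⟩
    rw [← hz]
    simp [π, iterateFrobeniusEquiv_apply, iterateFrobenius_def]
  have hu : ∀ b, IsUnit (π b) → IsUnit b := by
    intro b hb
    have h1 : IsUnit (b : R) := by
      by_contra h
      have h2 : (b : R) ∈ IsLocalRing.maximalIdeal R := (IsLocalRing.mem_maximalIdeal _).mpr h
      have h3 : π b = 0 := (IsLocalRing.residue_eq_zero_iff _).mpr h2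
      rw [h3] at hb
      exact not_isUnit_zero hb
    have h2 : Function.Injective (fun x : ghostSubring p k R => b * x) := by
      intro x y hxy
      have h3 : (b : R) * x = b * y := congrArg Subtype.val hxy
      exact Subtype.ext (h1.mul_left_cancel h3)
    obtain ⟨x, hx⟩ := (Finite.injective_iff_surjective.mp h2) 1
    exact IsUnit.of_mul_eq_one x hx
  have h := card_units_of_surjective π hπ hu
  have h2 : Nat.card (IsLocalRing.ResidueField R)ˣ = Nat.card (IsLocalRing.ResidueField R) - 1 :=
    Nat.card_units _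
  rw [h2] at h
  rw [← h]
  congr 1
  refine Nat.card_congr (Equiv.ofBijective
    (fun u : {u : Rˣ // (u : R) ∈ ghostSubring p k R} => (hu ⟨(u.1 : R), u.2⟩
      (u.1.isUnit.map (IsLocalRing.residue R))).unit) ⟨?_, ?_⟩)
  · intro u v huv
    have h3 := congrArg (fun w : (ghostSubring p k R)ˣ => ((w : ghostSubring p k R) : R)) huv
    simp only [IsUnit.unit_spec] at h3
    exact Subtype.ext (Units.ext h3)
  · intro w
    refine ⟨⟨Units.map (ghostSubring p k R).subtype.toMonoidHom w, ?_⟩, ?_⟩
    · exact (w : ghostSubring p k R).2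
    · apply Units.ext
      apply Subtype.ext
      simp

/-- **Main count over a finite local ring.** -/
theorem numCirc_local (m k : ℕ) (hm : 0 < m) (hmp : Nat.Coprime m p) [NeZero (m * p ^ k)]
    (a : R) (ha : IsUnit a) :
    (a ∉ ghostSubring p k R → numCirc (m * p ^ k) R a = 0) ∧
    (a ∈ ghostSubring p k R → (numCirc (m * p ^ k) R a : ℚ) =
      (Nat.card R : ℚ) ^ (m * p ^ k) / (Nat.card (ghostSubring p k R) : ℚ) *
        ∏ d ∈ m.divisors.erase 1,
          (1 - ((Nat.card (IsLocalRing.ResidueField R) : ℚ) ^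
            orderOf ((Nat.card (IsLocalRing.ResidueField R) : ℕ) : ZMod d))⁻¹) ^
          (d.totient / orderOf ((Nat.card (IsLocalRing.ResidueField R) : ℕ) : ZMod d))) := by
  have hfinF : Finite (IsLocalRing.ResidueField R) :=
    Finite.of_surjective _ (IsLocalRing.residue_surjective (R := R))
  rw [numCirc_eq]
  have himg := exists_detHom_eq_iff p m k hm hmp a ha
  constructor
  · intro hna
    rw [Nat.card_eq_zero]
    left
    constructor
    rintro ⟨b, hb⟩
    exact hna (himg.mp ⟨b, hb⟩)
  · intro hmem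
    obtain ⟨b₀, hb₀⟩ := himg.mpr hmem
    have hb₀u : IsUnit b₀ := by
      rw [isUnit_iff_det, ← detHom_apply, hb₀]; exact ha
    obtain ⟨u₀, rfl⟩ := hb₀u
    obtain ⟨a, rfl⟩ := ha
    let φ : (Cyc R (m * p ^ k))ˣ →* Rˣ := Units.map (detHom R (m * p ^ k))
    have hφ₀ : φ u₀ = a := Units.ext hb₀
    -- the fibre is in bijection with the kernel
    have h1 : Nat.card {b : Cyc R (m * p ^ k) // (rep R (m * p ^ k) b).det = a} = Nat.card φ.ker := by
      symm
      refine Nat.card_congr (Equiv.ofBijective (fun u : φ.ker =>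
        (⟨((u₀ * u.1 : (Cyc R (m * p ^ k))ˣ) : Cyc R (m * p ^ k)), ?_⟩ :
          {b : Cyc R (m * p ^ k) // (rep R (m * p ^ k) b).det = a})) ⟨?_, ?_⟩)
      · have h2 : φ (u₀ * u.1) = a := by
          rw [map_mul, hφ₀, MonoidHom.mem_ker.mp u.2, mul_one]
        exact congrArg Units.val h2
      · intro u v huv
        have h2 := congrArg Subtype.val huv
        simp only at h2
        exact Subtype.ext (mul_left_cancel (Units.ext h2))
      · rintro ⟨b, hb⟩
        have hbu : IsUnit b := by rw [isUnit_iff_det, hb]; exact a.isUnit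
        obtain ⟨u, rfl⟩ := hbu
        have hφu : φ u = a := Units.ext hb
        refine ⟨⟨u₀⁻¹ * u, ?_⟩, ?_⟩
        · rw [MonoidHom.mem_ker, map_mul, map_inv, hφ₀, hφu, inv_mul_cancel]
        · apply Subtype.ext
          simp only [mul_inv_cancel_left]
    -- the range
    have h2 : Nat.card φ.range = Nat.card {u : Rˣ // (u : R) ∈ ghostSubring p k R} := by
      refine Nat.card_congr (Equiv.subtypeEquivRight (fun u => ?_))
      rw [MonoidHom.mem_range, ← exists_detHom_eq_iff p m k hm hmp (u : R) u.isUnit]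
      constructor
      · rintro ⟨x, hx⟩
        exact ⟨x, congrArg Units.val hx⟩
      · rintro ⟨b, hb⟩
        have hbu : IsUnit b := by rw [isUnit_iff_det, ← detHom_apply, hb]; exact u.isUnit
        obtain ⟨x, rfl⟩ := hbu
        exact ⟨x, Units.ext hb⟩
    have h3 : Nat.card (Cyc R (m * p ^ k))ˣ = Nat.card φ.range * Nat.card φ.ker := by
      rw [Subgroup.card_eq_card_quotient_mul_card_subgroup φ.ker]
      congr 1
      exact Nat.card_congr (QuotientGroup.quotientKerEquivRange φ).toEquiv
    have h4 := card_units_ghost (R := R) p k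
    have h5 := card_units_cyc (R := R) p m k hm
    have h6 := prod_irrFactors (F := IsLocalRing.ResidueField R) p m hm hmp
      (fun t => 1 - ((Nat.card (IsLocalRing.ResidueField R) : ℚ) ^ t)⁻¹)
    rw [h6, ← Finset.mul_prod_erase _ _ (Nat.one_mem_divisors.mpr hm.ne')] at h5
    have h7 : orderOf ((Nat.card (IsLocalRing.ResidueField R) : ℕ) : ZMod 1) = 1 := by
      rw [orderOf_eq_one_iff]; exact Subsingleton.elim _ _
    rw [h7, pow_one, Nat.totient_one, Nat.div_one, pow_one] at h5
    rw [h1]
    rw [h2] at h3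
    set q := Nat.card (IsLocalRing.ResidueField R) with hq
    have hq2 : 1 < q := Finite.one_lt_card
    have hq0 : (q : ℚ) ≠ 0 := by positivity
    have hq1 : (q : ℚ) - 1 ≠ 0 := by
      have : (1 : ℚ) < q := by exact_mod_cast hq2
      linarith
    set g := Nat.card (ghostSubring p k R) with hg
    have hg0 : (g : ℚ) ≠ 0 := by
      have : 0 < g := Nat.card_pos
      positivity
    set c := Nat.card {u : Rˣ // (u : R) ∈ ghostSubring p k R} with hc
    have h4' : (c : ℚ) * q = g * (q - 1) := by
      have := congrArg (Nat.cast : ℕ → ℚ) h4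
      rw [Nat.cast_mul, Nat.cast_mul, Nat.cast_sub hq2.le] at this
      simpa using this
    have hc0 : (c : ℚ) ≠ 0 := by
      intro h
      rw [h, zero_mul] at h4'
      exact (mul_ne_zero hg0 hq1) h4'.symm
    have h3' : (Nat.card (Cyc R (m * p ^ k))ˣ : ℚ) = c * Nat.card φ.ker := by
      rw [h3]; push_cast; rfl
    rw [h5] at h3'
    have h8 : (Nat.card φ.ker : ℚ) = ((Nat.card R : ℚ) ^ (m * p ^ k) * ((1 - (q : ℚ)⁻¹) *
        ∏ x ∈ m.divisors.erase 1, (1 - ((q : ℚ) ^ orderOf ((q : ℕ) : ZMod x))⁻¹) ^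
          (x.totient / orderOf ((q : ℕ) : ZMod x)))) / c := by
      rw [h3']
      field_simp
    rw [h8]
    have h9 : (c : ℚ) = g * (q - 1) / q := by
      rw [← h4']; field_simp
    rw [h9]
    field_simp

end local_ring

end Pool.Agent.H56.Circ
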