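import Mathlib

/-!
# Norms of cyclic algebras via companion matrices
-/

open Polynomial Matrix

namespace Pool.Agent.H56.Circ

variable {A B : Type*} [CommRing A] [CommRing B]

/-- The companion matrix of `X ^ N - y`. -/
def cmat (N : ℕ) (y : A) : Matrix (Fin N) (Fin N) A :=
  Matrix.of fun i j => if (i : ℕ) = j + 1 then 1 else if (i : ℕ) = 0 ∧ (j : ℕ) + 1 = N then y else 0

/-- The norm from `A[X]/(X ^ N - y)` to `A` of the class of `f`. -/
noncomputable def nrm (N : ℕ) (y : A) (f : A[X]) : A := (aeval (cmat N y) f).det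

lemma cmat_map (φ : A →+* B) (N : ℕ) (y : A) : (cmat N y).map φ = cmat N (φ y) := by
  ext i j
  simp only [cmat, Matrix.map_apply, Matrix.of_apply]
  split_ifs <;> simp

lemma aeval_cmat_map (φ : A →+* B) (N : ℕ) (y : A) (f : A[X]) :
    (aeval (cmat N y) f).map φ = aeval (cmat N (φ y)) (f.map φ) := by
  rw [← cmat_map φ, ← RingHom.mapMatrix_apply, ← RingHom.mapMatrix_apply]
  rw [Polynomial.aeval_def, Polynomial.aeval_def, Polynomial.hom_eval₂, Polynomial.eval₂_map]
  congr 1
  ext x i j
  simp only [RingHom.comp_apply, RingHom.mapMatrix_apply, Matrix.map_apply]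
  rw [Matrix.algebraMap_matrix_apply, Matrix.algebraMap_matrix_apply]
  split_ifs <;> simp

lemma nrm_map (φ : A →+* B) (N : ℕ) (y : A) (f : A[X]) :
    φ (nrm N y f) = nrm N (φ y) (f.map φ) := by
  unfold nrm
  rw [RingHom.map_det, RingHom.mapMatrix_apply, aeval_cmat_map]

lemma nrm_mul (N : ℕ) (y : A) (f g : A[X]) : nrm N y (f * g) = nrm N y f * nrm N y g := by
  unfold nrm
  rw [map_mul, det_mul]

lemma nrm_one (N : ℕ) (y : A) : nrm N y (1 : A[X]) = 1 := by
  unfold nrm
  rw [map_one, det_one]

lemma nrm_pow (N : ℕ) (y : A) (f : A[X]) (r : ℕ) : nrm N y (f ^ r) = nrm N y f ^ r := by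
  unfold nrm
  rw [map_pow, det_pow]

lemma nrm_C (N : ℕ) (y a : A) : nrm N y (C a) = a ^ N := by
  unfold nrm
  rw [aeval_C, Algebra.algebraMap_eq_smul_one, det_smul, det_one, mul_one, Fintype.card_fin]

/-- entries of powers of the companion matrix -/
lemma cmat_pow_apply (N : ℕ) (y : A) (l : ℕ) (hl : l ≤ N) (i j : Fin N) :
    (cmat N y ^ l) i j = if (i : ℕ) = j + l then 1 else if (i : ℕ) + N = j + l then y else 0 := by
  induction l generalizing i j with
  | zero =>
    rw [pow_zero, Matrix.one_apply]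
    have hi := i.2
    have hj := j.2
    by_cases h : i = j
    · subst h; simp
    · have h1 : (i : ℕ) ≠ j := fun h' => h (Fin.ext h')
      rw [if_neg h, if_neg (by omega), if_neg (by omega)]
  | succ l ih =>
    rw [pow_succ', Matrix.mul_apply]
    have hi := i.2
    have hj := j.2
    rcases Nat.eq_zero_or_pos (i : ℕ) with h0 | h0
    · -- only the last index contributes
      have hN : 0 < N := by omega
      rw [Finset.sum_eq_single (⟨N - 1, by omega⟩ : Fin N)]
      · rw [ih (by omega)]
        simp only [cmat, Matrix.of_apply]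
        rw [if_neg (by omega), if_pos (by omega)]
        split_ifs <;> first | omega | simp
      · intro b _ hb
        have hb' : (b : ℕ) ≠ N - 1 := fun h => hb (Fin.ext h)
        have hb2 := b.2
        simp only [cmat, Matrix.of_apply]
        rw [if_neg (by omega), if_neg (by omega), zero_mul]
      · simp
    · rw [Finset.sum_eq_single (⟨(i : ℕ) - 1, by omega⟩ : Fin N)]
      · rw [ih (by omega)]
        simp only [cmat, Matrix.of_apply]
        rw [if_pos (by omega), one_mul]
        split_ifs <;> first | omega | rfl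
      · intro b _ hb
        have hb' : (b : ℕ) ≠ i - 1 := fun h => hb (Fin.ext h)
        have hb2 := b.2
        simp only [cmat, Matrix.of_apply]
        rw [if_neg (by omega), if_neg (by omega), zero_mul]
      · simp

lemma cmat_pow_self (N : ℕ) (y : A) : cmat N y ^ N = algebraMap A _ y := by
  ext i j
  rw [cmat_pow_apply N y N le_rfl, Matrix.algebraMap_matrix_apply]
  have hi := i.2
  have hj := j.2
  by_cases h : i = j
  · subst h
    rw [if_neg (by omega), if_pos rfl, if_pos rfl]
    rfl
  · have h1 : (i : ℕ) ≠ j := fun h' => h (Fin.ext h')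
    rw [if_neg (by omega), if_neg (by omega), if_neg h]

/-- Substituting `X ^ N`. -/
lemma nrm_expand (N : ℕ) (y : A) (f : A[X]) : nrm N y (expand A N f) = (f.eval y) ^ N := by
  unfold nrm
  rw [expand_aeval, cmat_pow_self, Polynomial.aeval_algebraMap_apply, Algebra.algebraMap_eq_smul_one,
    det_smul, det_one, mul_one, Fintype.card_fin, Polynomial.coe_aeval_eq_eval]

section tower

/-- The relative norm from `A[X]` to `A[Y]`, `Y = X ^ N`. -/
noncomputable def rel (N : ℕ) (f : A[X]) : A[X] := nrm N (X : A[X]) (f.map C)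

lemma rel_map (φ : A →+* B) (N : ℕ) (f : A[X]) : (rel N f).map φ = rel N (f.map φ) := by
  have h := nrm_map (Polynomial.mapRingHom φ) N (X : A[X]) (f.map C)
  simp only [Polynomial.coe_mapRingHom, Polynomial.map_X] at h
  unfold rel
  rw [h, Polynomial.map_map, Polynomial.map_map]
  congr 2
  ext x
  simp

lemma rel_expand (N : ℕ) (f : A[X]) : rel N (expand A N f) = f ^ N := by
  unfold rel
  rw [Polynomial.map_expand, nrm_expand]
  congr 1
  rw [← Polynomial.eval₂_eq_eval_map, Polynomial.eval₂_C_X]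

/-- Block structure: evaluating the companion matrix of `X ^ N - Y` at `Y = cmat M 1`
gives (up to reindexing) `cmat (M * N) 1`. -/
lemma block_cmat (N M : ℕ) (hN : 0 < N) (hM : 0 < M) :
    Matrix.reindex ((Equiv.prodComm (Fin N) (Fin M)).trans finProdFinEquiv)
      ((Equiv.prodComm (Fin N) (Fin M)).trans finProdFinEquiv)
      (compAlgEquiv (Fin N) (Fin M) A A
        ((cmat N (X : A[X])).map (aeval (cmat M (1 : A))))) = cmat (M * N) (1 : A) := by
  ext i j
  obtain ⟨⟨a, b⟩, rfl⟩ := ((Equiv.prodComm (Fin N) (Fin M)).trans finProdFinEquiv).surjective i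
  obtain ⟨⟨c, d⟩, rfl⟩ := ((Equiv.prodComm (Fin N) (Fin M)).trans finProdFinEquiv).surjective j
  rw [Matrix.reindex_apply, Matrix.submatrix_apply, Equiv.symm_apply_apply,
    Equiv.symm_apply_apply, compAlgEquiv_apply, Matrix.comp_apply]
  simp only [Matrix.map_apply, cmat, Matrix.of_apply, Equiv.trans_apply, Equiv.prodComm_apply,
    Prod.swap_prod_mk, finProdFinEquiv_apply_val]
  have ha := a.2
  have hb := b.2
  have hc := c.2
  have hd := d.2
  have e1 : ((a : ℕ) + N * b = (c : ℕ) + N * d + 1) ↔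
      ((a : ℕ) = c + 1 ∧ (b : ℕ) = d) ∨ ((a : ℕ) = 0 ∧ (c : ℕ) + 1 = N ∧ (b : ℕ) = d + 1) := by
    constructor
    · intro h
      rcases lt_trichotomy (b : ℕ) (d : ℕ) with h1 | h1 | h1
      · exfalso
        have : N * (b : ℕ) + N ≤ N * d := by
          have := Nat.mul_le_mul_left N h1
          rw [Nat.succ_eq_add_one, mul_add, mul_one] at this
          exact this
        omega
      · left
        rw [h1] at h
        exact ⟨by omega, h1⟩
      · right
        have h2 : N * (d : ℕ) + N ≤ N * b := by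
          have := Nat.mul_le_mul_left N h1
          rw [Nat.succ_eq_add_one, mul_add, mul_one] at this
          exact this
        have h3 : (b : ℕ) = d + 1 := by
          by_contra h4
          have h5 : (d : ℕ) + 2 ≤ b := by omega
          have := Nat.mul_le_mul_left N h5
          rw [mul_add] at this
          omega
        refine ⟨by omega, by omega, h3⟩
    · rintro (⟨h1, h2⟩ | ⟨h1, h2, h3⟩)
      · rw [h1, h2]; ring
      · rw [h1, h3, mul_add]; omega
  have e2 : ((a : ℕ) + N * b = 0 ∧ (c : ℕ) + N * d + 1 = M * N) ↔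
      ((a : ℕ) = 0 ∧ (b : ℕ) = 0 ∧ (c : ℕ) + 1 = N ∧ (d : ℕ) + 1 = M) := by
    constructor
    · rintro ⟨h1, h2⟩
      have h3 : (a : ℕ) = 0 := by omega
      have h4 : N * (b : ℕ) = 0 := by omega
      have h5 : (b : ℕ) = 0 := by
        rcases Nat.mul_eq_zero.mp h4 with h | h
        · omega
        · exact h
      have h6 : (d : ℕ) + 1 = M := by
        by_contra h7
        have h8 : (d : ℕ) + 2 ≤ M := by omega
        have := Nat.mul_le_mul_right N h8
        rw [add_mul, mul_comm (d : ℕ) N] at this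
        omega
      refine ⟨h3, h5, ?_, h6⟩
      have h7 : M * N = N * (d : ℕ) + N := by
        calc M * N = ((d : ℕ) + 1) * N := by rw [h6]
          _ = N * (d : ℕ) + N := by ring
      omega
    · rintro ⟨h1, h2, h3, h4⟩
      refine ⟨by rw [h1, h2]; simp, ?_⟩
      have h7 : M * N = N * (d : ℕ) + N := by
        calc M * N = ((d : ℕ) + 1) * N := by rw [h4]
          _ = N * (d : ℕ) + N := by ring
      omega
  simp only [e1, e2]
  by_cases c1 : (a : ℕ) = c + 1
  · rw [if_pos c1, map_one, Matrix.one_apply]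
    by_cases c2 : b = d
    · subst c2; simp [c1]
    · have c3 : (b : ℕ) ≠ d := fun h => c2 (Fin.ext h)
      rw [if_neg c2, if_neg (by omega), if_neg (by omega)]
  · rw [if_neg c1]
    by_cases c2 : (a : ℕ) = 0 ∧ (c : ℕ) + 1 = N
    · rw [if_pos c2, aeval_X]
      simp only [Matrix.of_apply]
      by_cases c3 : (b : ℕ) = d + 1
      · rw [if_pos c3, if_pos (by omega)]
      · rw [if_neg c3]
        by_cases c4 : (b : ℕ) = 0 ∧ (d : ℕ) + 1 = M
        · rw [if_pos c4, if_neg (by omega), if_pos (by omega)]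
        · rw [if_neg c4, if_neg (by omega), if_neg (by omega)]
    · rw [if_neg c2, map_zero, Matrix.zero_apply, if_neg (by omega), if_neg (by omega)]

/-- Transitivity of norms in the tower `A ⊆ A[Y]/(Y ^ M - 1) ⊆ A[X]/(X ^ (M * N) - 1)`. -/
theorem nrm_tower (N M : ℕ) (hN : 0 < N) (hM : 0 < M) (f : A[X]) :
    nrm (M * N) 1 f = nrm M 1 (rel N f) := by
  set ev : A[X] →ₐ[A] Matrix (Fin M) (Fin M) A := aeval (cmat M (1 : A)) with hev
  have h1 : nrm M 1 (rel N f) = (ev ((aeval (cmat N (X : A[X])) (f.map C)).det)).det := rfl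
  have h2 := Matrix.det_det (aeval (cmat N (X : A[X])) (f.map C)) (ev : A[X] →+* Matrix (Fin M) (Fin M) A)
  rw [h1]
  change _ = ((ev : A[X] →+* Matrix (Fin M) (Fin M) A)
    ((aeval (cmat N (X : A[X])) (f.map C)).det)).det
  rw [h2]
  -- the ring hom Ψ
  let Ψ : Matrix (Fin N) (Fin N) A[X] →ₐ[A] Matrix (Fin N × Fin M) (Fin N × Fin M) A :=
    (compAlgEquiv (Fin N) (Fin M) A A).toAlgHom.comp (AlgHom.mapMatrix ev)
  have h3 : Ψ (aeval (cmat N (X : A[X])) (f.map C)) = aeval (Ψ (cmat N (X : A[X]))) f := by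
    have h4 : aeval (cmat N (X : A[X])) (f.map C) = aeval (cmat N (X : A[X])) f := by
      rw [Polynomial.aeval_def, Polynomial.aeval_def, Polynomial.eval₂_map]
      rfl
    rw [h4, Polynomial.aeval_algHom_apply]
  have h5 : (Matrix.comp (Fin N) (Fin N) (Fin M) (Fin M) A
      ((aeval (cmat N (X : A[X])) (f.map C)).map (ev : A[X] →+* Matrix (Fin M) (Fin M) A))) =
      Ψ (aeval (cmat N (X : A[X])) (f.map C)) := rfl
  rw [h5, h3]
  let e := (Equiv.prodComm (Fin N) (Fin M)).trans finProdFinEquiv
  have h6 : Matrix.reindexAlgEquiv A A e (Ψ (cmat N (X : A[X]))) = cmat (M * N) (1 : A) :=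
    block_cmat N M hN hM
  unfold nrm
  rw [← h6]
  have h7 : aeval (Matrix.reindexAlgEquiv A A e (Ψ (cmat N (X : A[X])))) f =
      Matrix.reindexAlgEquiv A A e (aeval (Ψ (cmat N (X : A[X]))) f) := by
    exact Polynomial.aeval_algHom_apply (Matrix.reindexAlgEquiv A A e).toAlgHom _ f
  rw [h7, Matrix.det_reindexAlgEquiv]

end tower

end Pool.Agent.H56.Circ
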