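import Pool.Agent.H56.Circ.Count

/-!
# The number of units of `R[X]/(X ^ n - 1)` over a finite local ring
-/

open Polynomial Matrix UniqueFactorizationMonoid

namespace Pool.Agent.H56.Circ

lemma isNilpotent_of_mem_maximalIdeal {R : Type*} [CommRing R] [IsLocalRing R] [Finite R] (x : R)
    (hx : x ∈ IsLocalRing.maximalIdeal R) : IsNilpotent x := by
  obtain ⟨i, j, hij, h⟩ := Finite.exists_ne_map_eq_of_infinite (fun n : ℕ => x ^ n)
  wlog hlt : i < j generalizing i j
  · exact this j i hij.symm h.symm (lt_of_le_of_ne (not_lt.mp hlt) hij.symm)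
  refine ⟨i, ?_⟩
  have h1 : x ^ i * (1 - x ^ (j - i)) = 0 := by
    rw [mul_sub, mul_one, ← pow_add, Nat.add_sub_cancel' hlt.le, sub_eq_zero]
    exact h
  have h2 : IsUnit (1 - x ^ (j - i)) := by
    by_contra h3
    have h4 : x ^ (j - i) ∈ IsLocalRing.maximalIdeal R :=
      Ideal.pow_mem_of_mem _ hx _ (by omega)
    have h5 : (1 : R) ∈ IsLocalRing.maximalIdeal R := by
      have := Ideal.add_mem _ ((IsLocalRing.mem_maximalIdeal _).mpr h3) h4
      simpa only [sub_add_cancel] using this
    exact (Ideal.ne_top_iff_one _).mp (IsLocalRing.maximalIdeal.isMaximal R).ne_top h5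
  exact (h2.mul_left_eq_zero).mp h1

section field

variable {F : Type*} [Field F]

lemma natCard_quot_span {g : F[X]} (hg : g ≠ 0) :
    Nat.card (F[X] ⧸ Ideal.span {g}) = Nat.card F ^ g.natDegree := by
  have : Module.Finite F (F[X] ⧸ Ideal.span {g}) := by
    have := (AdjoinRoot.powerBasis hg).finite
    exact this
  rw [Module.natCard_eq_pow_finrank (K := F), finrank_quotient_span_eq_natDegree]

lemma natCard_units_quot_span {g : F[X]} (hg : Irreducible g) :
    Nat.card (F[X] ⧸ Ideal.span {g})ˣ = Nat.card F ^ g.natDegree - 1 := by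
  have : (Ideal.span {g}).IsMaximal := PrincipalIdealRing.isMaximal_of_irreducible hg
  let _ := Ideal.Quotient.field (Ideal.span {g})
  rw [← natCard_quot_span hg.ne_zero]
  exact Nat.card_units _

end field

section factors

variable (F : Type*) [Field F] (m : ℕ)

/-- The set of monic irreducible factors of `X ^ m - 1`. -/
noncomputable def irrFactors : Finset F[X] := by
  classical exact (normalizedFactors (X ^ m - 1 : F[X])).toFinset

variable {F m}

lemma X_pow_sub_one_ne_zero' (hm : 0 < m) : (X ^ m - 1 : F[X]) ≠ 0 :=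
  (Polynomial.monic_X_pow_sub_C (1 : F) hm.ne').ne_zero

lemma mem_irrFactors (hm : 0 < m) {g : F[X]} :
    g ∈ irrFactors F m ↔ Irreducible g ∧ g.Monic ∧ g ∣ X ^ m - 1 := by
  classical
  unfold irrFactors
  rw [Multiset.mem_toFinset, mem_normalizedFactors_iff' (X_pow_sub_one_ne_zero' hm)]
  refine and_congr_right (fun hg => and_congr_left (fun _ => ?_))
  exact Polynomial.normalize_eq_self_iff_monic hg.ne_zero

lemma isCoprime_irrFactors (hm : 0 < m) {g h : F[X]} (hg : g ∈ irrFactors F m)
    (hh : h ∈ irrFactors F m) (hne : g ≠ h) : IsCoprime g h := by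
  rw [mem_irrFactors hm] at hg hh
  by_cases h1 : g ∣ h
  swap
  · exact (Irreducible.coprime_iff_not_dvd hg.1).mpr h1
  · exfalso
    have h2 : Associated g h := hg.1.associated_of_dvd hh.1 h1
    exact hne (Polynomial.eq_of_monic_of_associated hg.2.1 hh.2.1 h2)

lemma isCoprime_X_pow_sub_one (hm : 0 < m) (f : F[X])
    (h : ∀ g ∈ irrFactors F m, IsCoprime f g) : IsCoprime f (X ^ m - 1) := by
  classical
  have h1 := prod_normalizedFactors (X_pow_sub_one_ne_zero' (F := F) hm)
  have h2 : IsCoprime f (normalizedFactors (X ^ m - 1 : F[X])).prod := by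
    refine Multiset.prod_induction (fun g => IsCoprime f g) _ (fun a b ha hb => ha.mul_right hb)
      isCoprime_one_right (fun g hg => h g ?_)
    unfold irrFactors
    rwa [Multiset.mem_toFinset]
  exact (h2.of_isCoprime_of_dvd_right h1.symm.dvd)

end factors

section main

variable {R : Type*} [CommRing R] [IsLocalRing R] [Finite R]

/-- The map from `R[X]/(X ^ n - 1)` to the product of its residue fields. -/
noncomputable def toFields (R : Type*) [CommRing R] [IsLocalRing R] (m n : ℕ) (hm : 0 < m)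
    (hmn : m ∣ n) : Cyc R n →+*
      ((g : irrFactors (IsLocalRing.ResidueField R) m) →
        (IsLocalRing.ResidueField R)[X] ⧸ Ideal.span {(g : (IsLocalRing.ResidueField R)[X])}) :=
  Ideal.Quotient.lift _ (RingHom.pi (fun g => (Ideal.Quotient.mk _).comp
    (Polynomial.mapRingHom (IsLocalRing.residue R)))) (by
      intro a ha
      rw [Ideal.mem_span_singleton] at ha
      obtain ⟨c, rfl⟩ := ha
      funext g
      change Ideal.Quotient.mk _ (((X ^ n - 1) * c).map (IsLocalRing.residue R)) = 0
      rw [Ideal.Quotient.eq_zero_iff_mem, Ideal.mem_span_singleton, Polynomial.map_mul]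
      refine Dvd.dvd.mul_right ?_ _
      rw [Polynomial.map_sub, Polynomial.map_pow, Polynomial.map_X, Polynomial.map_one]
      have hg := g.2
      rw [mem_irrFactors hm] at hg
      obtain ⟨t, rfl⟩ := hmn
      refine hg.2.2.trans ?_
      rw [pow_mul]
      exact sub_one_dvd_pow_sub_one _ _)

lemma toFields_mk (m n : ℕ) (hm : 0 < m) (hmn : m ∣ n) (f : R[X])
    (g : irrFactors (IsLocalRing.ResidueField R) m) :
    toFields R m n hm hmn (Ideal.Quotient.mk _ f) g =
      Ideal.Quotient.mk _ (f.map (IsLocalRing.residue R)) := rfl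

lemma toFields_surjective (m n : ℕ) (hm : 0 < m) (hmn : m ∣ n) :
    Function.Surjective (toFields R m n hm hmn) := by
  intro x
  have hcop : Pairwise (Function.onFun IsCoprime
      (fun g : irrFactors (IsLocalRing.ResidueField R) m =>
        Ideal.span {(g : (IsLocalRing.ResidueField R)[X])})) := by
    intro g h hgh
    rw [Function.onFun, Ideal.isCoprime_span_singleton_iff]
    exact isCoprime_irrFactors hm g.2 h.2 (fun h' => hgh (Subtype.ext h'))
  obtain ⟨r, hr⟩ := Ideal.pi_quotient_surjective hcop x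
  obtain ⟨f, rfl⟩ := Polynomial.map_surjective _ (IsLocalRing.residue_surjective (R := R)) r
  exact ⟨Ideal.Quotient.mk _ f, funext (fun g => hr g)⟩

lemma isUnit_of_toFields (p : ℕ) [hp : Fact p.Prime] [CharP (IsLocalRing.ResidueField R) p]
    (m k : ℕ) (hm : 0 < m) (b : Cyc R (m * p ^ k))
    (hb : IsUnit (toFields R m (m * p ^ k) hm (dvd_mul_right _ _) b)) : IsUnit b := by
  obtain ⟨f, rfl⟩ := Ideal.Quotient.mk_surjective b
  -- the reduction of `f` is coprime to all factors
  have h1 : ∀ g ∈ irrFactors (IsLocalRing.ResidueField R) m,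
      IsCoprime (f.map (IsLocalRing.residue R)) g := by
    intro g hg
    have h2 := (Pi.isUnit_iff.mp hb) ⟨g, hg⟩
    rw [toFields_mk] at h2
    obtain ⟨y, hy⟩ := h2.exists_right_inv
    obtain ⟨w, rfl⟩ := Ideal.Quotient.mk_surjective y
    rw [← map_mul, ← map_one (Ideal.Quotient.mk _), Ideal.Quotient.eq, Ideal.mem_span_singleton] at hy
    obtain ⟨c, hc⟩ := hy
    refine ⟨w, -c, ?_⟩
    linear_combination hc
  have h2 := isCoprime_X_pow_sub_one hm _ h1
  have h3 : IsCoprime (f.map (IsLocalRing.residue R))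
      ((X ^ (m * p ^ k) - 1 : R[X]).map (IsLocalRing.residue R)) := by
    have e : (X ^ (m * p ^ k) - 1 : R[X]).map (IsLocalRing.residue R) = (X ^ m - 1) ^ (p ^ k) := by
      rw [Polynomial.map_sub, Polynomial.map_pow, Polynomial.map_X, Polynomial.map_one, pow_mul,
        sub_pow_char_pow, one_pow]
    rw [e]
    exact h2.pow_right
  obtain ⟨u, v, huv⟩ := h3
  obtain ⟨U, rfl⟩ := Polynomial.map_surjective _ (IsLocalRing.residue_surjective (R := R)) u
  obtain ⟨V, rfl⟩ := Polynomial.map_surjective _ (IsLocalRing.residue_surjective (R := R)) v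
  set h : R[X] := U * f + V * (X ^ (m * p ^ k) - 1) - 1 with hh
  have h4 : h.map (IsLocalRing.residue R) = 0 := by
    rw [hh, Polynomial.map_sub, Polynomial.map_add, Polynomial.map_mul, Polynomial.map_mul,
      Polynomial.map_one, huv, sub_self]
  have h5 : IsNilpotent h := by
    rw [Polynomial.isNilpotent_iff]
    intro i
    apply isNilpotent_of_mem_maximalIdeal
    have h6 := congrArg (fun g => Polynomial.coeff g i) h4
    simp only [Polynomial.coeff_map, Polynomial.coeff_zero] at h6
    exact (IsLocalRing.residue_eq_zero_iff _).mp h6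
  have h6 : IsNilpotent (Ideal.Quotient.mk (Ideal.span {(X ^ (m * p ^ k) - 1 : R[X])}) h) :=
    h5.map _
  have h7 : (Ideal.Quotient.mk (Ideal.span {(X ^ (m * p ^ k) - 1 : R[X])}) (X ^ (m * p ^ k) - 1)) = 0 := by
    rw [Ideal.Quotient.eq_zero_iff_mem, Ideal.mem_span_singleton]
  have h8 : (Ideal.Quotient.mk (Ideal.span {(X ^ (m * p ^ k) - 1 : R[X])}) U) *
      (Ideal.Quotient.mk (Ideal.span {(X ^ (m * p ^ k) - 1 : R[X])}) f) =
      1 + Ideal.Quotient.mk (Ideal.span {(X ^ (m * p ^ k) - 1 : R[X])}) h := by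
    rw [hh, map_sub, map_add, map_mul, map_mul, h7, map_one]
    ring
  have h9 : IsUnit (1 + Ideal.Quotient.mk (Ideal.span {(X ^ (m * p ^ k) - 1 : R[X])}) h) :=
    h6.isUnit_one_add
  rw [← h8] at h9
  exact isUnit_of_mul_isUnit_right h9

/-- The number of units of `R[X]/(X ^ n - 1)`, `n = m p^k`, in terms of the irreducible factors of
`X ^ m - 1` over the residue field. -/
theorem card_units_cyc (p : ℕ) [hp : Fact p.Prime] [CharP (IsLocalRing.ResidueField R) p]
    (m k : ℕ) (hm : 0 < m) :
    (Nat.card (Cyc R (m * p ^ k))ˣ : ℚ) = (Nat.card R : ℚ) ^ (m * p ^ k) *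
      ∏ g ∈ irrFactors (IsLocalRing.ResidueField R) m,
        (1 - ((Nat.card (IsLocalRing.ResidueField R) : ℚ) ^ g.natDegree)⁻¹) := by
  classical
  have hn : 0 < m * p ^ k := Nat.mul_pos hm (pow_pos hp.out.pos _)
  have : NeZero (m * p ^ k) := ⟨hn.ne'⟩
  have hfinF : Finite (IsLocalRing.ResidueField R) :=
    Finite.of_surjective _ (IsLocalRing.residue_surjective (R := R))
  have hfin : ∀ g : irrFactors (IsLocalRing.ResidueField R) m,
      Finite ((IsLocalRing.ResidueField R)[X] ⧸ Ideal.span {(g : (IsLocalRing.ResidueField R)[X])}) := by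
    intro g
    have hg := g.2
    rw [mem_irrFactors hm] at hg
    have h1 : Module.Finite (IsLocalRing.ResidueField R)
        ((IsLocalRing.ResidueField R)[X] ⧸ Ideal.span {(g : (IsLocalRing.ResidueField R)[X])}) :=
      (AdjoinRoot.powerBasis hg.1.ne_zero).finite
    exact Module.finite_of_finite (IsLocalRing.ResidueField R)
  have h1 := card_units_of_surjective (toFields R m (m * p ^ k) hm (dvd_mul_right _ _))
    (toFields_surjective m (m * p ^ k) hm (dvd_mul_right _ _))
    (fun b => isUnit_of_toFields p m k hm b)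
  rw [card_cyc hn, Nat.card_pi, Nat.card_congr MulEquiv.piUnits.toEquiv, Nat.card_pi] at h1
  set q := Nat.card (IsLocalRing.ResidueField R) with hq
  have hq0 : (q : ℚ) ≠ 0 := by
    have : 0 < q := Nat.card_pos
    positivity
  have hq1 : 1 ≤ q := Nat.card_pos
  have h2 : ∀ g : irrFactors (IsLocalRing.ResidueField R) m,
      Nat.card ((IsLocalRing.ResidueField R)[X] ⧸ Ideal.span {(g : (IsLocalRing.ResidueField R)[X])}) =
        q ^ (g : (IsLocalRing.ResidueField R)[X]).natDegree := by
    intro g
    have hg := g.2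
    rw [mem_irrFactors hm] at hg
    exact natCard_quot_span hg.1.ne_zero
  have h3 : ∀ g : irrFactors (IsLocalRing.ResidueField R) m,
      Nat.card ((IsLocalRing.ResidueField R)[X] ⧸ Ideal.span {(g : (IsLocalRing.ResidueField R)[X])})ˣ =
        q ^ (g : (IsLocalRing.ResidueField R)[X]).natDegree - 1 := by
    intro g
    have hg := g.2
    rw [mem_irrFactors hm] at hg
    exact natCard_units_quot_span hg.1
  rw [Finset.prod_congr rfl (fun g _ => h2 g), Finset.prod_congr rfl (fun g _ => h3 g)] at h1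
  have h4 : (Nat.card (Cyc R (m * p ^ k))ˣ : ℚ) *
      ∏ g : irrFactors (IsLocalRing.ResidueField R) m,
        (q : ℚ) ^ (g : (IsLocalRing.ResidueField R)[X]).natDegree =
      (Nat.card R : ℚ) ^ (m * p ^ k) * ∏ g : irrFactors (IsLocalRing.ResidueField R) m,
        ((q : ℚ) ^ (g : (IsLocalRing.ResidueField R)[X]).natDegree - 1) := by
    have h5 := congrArg (Nat.cast : ℕ → ℚ) h1
    push_cast at h5
    rw [h5]
    congr 1
    refine Finset.prod_congr rfl (fun g _ => ?_)
    rw [Nat.cast_sub (Nat.one_le_pow _ _ hq1)]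
    push_cast
    rfl
  have h6 : ∏ g : irrFactors (IsLocalRing.ResidueField R) m,
        ((q : ℚ) ^ (g : (IsLocalRing.ResidueField R)[X]).natDegree - 1) =
      (∏ g : irrFactors (IsLocalRing.ResidueField R) m,
        (1 - ((q : ℚ) ^ (g : (IsLocalRing.ResidueField R)[X]).natDegree)⁻¹)) *
      ∏ g : irrFactors (IsLocalRing.ResidueField R) m,
        (q : ℚ) ^ (g : (IsLocalRing.ResidueField R)[X]).natDegree := by
    rw [← Finset.prod_mul_distrib]
    refine Finset.prod_congr rfl (fun g _ => ?_)
    have : (q : ℚ) ^ (g : (IsLocalRing.ResidueField R)[X]).natDegree ≠ 0 := pow_ne_zero _ hq0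
    field_simp
  rw [h6, ← mul_assoc] at h4
  have h7 : (∏ g : irrFactors (IsLocalRing.ResidueField R) m,
        (q : ℚ) ^ (g : (IsLocalRing.ResidueField R)[X]).natDegree) ≠ 0 :=
    Finset.prod_ne_zero_iff.mpr (fun g _ => pow_ne_zero _ hq0)
  have h8 := mul_right_cancel₀ h7 h4
  rw [h8]
  congr 1
  exact Finset.prod_coe_sort (irrFactors (IsLocalRing.ResidueField R) m)
    (fun g => (1 - ((q : ℚ) ^ g.natDegree)⁻¹))

end main

end Pool.Agent.H56.Circ
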